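import Mathlib

/-! A small verified interval evaluator for polynomial expressions in five real numbers. -/

set_option autoImplicit false

namespace Pool.Agent.H19.Moeckel

/-- polynomial expressions -/
inductive Ex : Type
  | c : ℚ → Ex
  | v : Fin 5 → Ex
  | add : Ex → Ex → Ex
  | sub : Ex → Ex → Ex
  | mul : Ex → Ex → Ex

namespace Ex

/-- real value -/
def eval (ρ : Fin 5 → ℝ) : Ex → ℝ
  | c q => (q : ℝ)
  | v i => ρ i
  | add a b => a.eval ρ + b.eval ρ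
  | sub a b => a.eval ρ - b.eval ρ
  | mul a b => a.eval ρ * b.eval ρ

/-- smaller of two rationals -/
def qmin (a b : ℚ) : ℚ := if a ≤ b then a else b

/-- larger of two rationals -/
def qmax (a b : ℚ) : ℚ := if a ≤ b then b else a

theorem qmin_eq (a b : ℚ) : qmin a b = min a b := by
  unfold qmin; split_ifs with h
  · exact (min_eq_left h).symm
  · exact (min_eq_right (le_of_not_ge h)).symm

theorem qmax_eq (a b : ℚ) : qmax a b = max a b := by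
  unfold qmax; split_ifs with h
  · exact (max_eq_right h).symm
  · exact (max_eq_left (le_of_not_ge h)).symm

/-- product of two intervals -/
def mulI (x y : ℚ × ℚ) : ℚ × ℚ :=
  (qmin (qmin (x.1 * y.1) (x.1 * y.2)) (qmin (x.2 * y.1) (x.2 * y.2)),
   qmax (qmax (x.1 * y.1) (x.1 * y.2)) (qmax (x.2 * y.1) (x.2 * y.2)))

/-- interval value -/
def iv (B : Fin 5 → ℚ × ℚ) : Ex → ℚ × ℚ
  | c q => (q, q)
  | v i => B i
  | add a b => ((a.iv B).1 + (b.iv B).1, (a.iv B).2 + (b.iv B).2)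
  | sub a b => ((a.iv B).1 - (b.iv B).2, (a.iv B).2 - (b.iv B).1)
  | mul a b => mulI (a.iv B) (b.iv B)

theorem mulI_sound {x y : ℚ × ℚ} {u w : ℝ} (hu : (x.1 : ℝ) ≤ u ∧ u ≤ x.2)
    (hw : (y.1 : ℝ) ≤ w ∧ w ≤ y.2) : ((mulI x y).1 : ℝ) ≤ u * w ∧ u * w ≤ (mulI x y).2 := by
  obtain ⟨h1, h2⟩ := hu
  obtain ⟨h3, h4⟩ := hw
  unfold mulI
  simp only [qmin_eq, qmax_eq]
  push_cast
  constructor
  · rw [min_le_iff, min_le_iff, min_le_iff]
    by_contra hcon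
    push Not at hcon
    obtain ⟨⟨c1, c2⟩, c3, c4⟩ := hcon
    rcases le_total 0 w with hw0 | hw0
    · have e1 : (x.1 : ℝ) * w ≤ u * w := mul_le_mul_of_nonneg_right h1 hw0
      rcases le_total 0 (x.1 : ℝ) with hx | hx
      · have : (x.1 : ℝ) * y.1 ≤ x.1 * w := mul_le_mul_of_nonneg_left h3 hx
        linarith
      · have : (x.1 : ℝ) * y.2 ≤ x.1 * w := mul_le_mul_of_nonpos_left h4 hx
        linarith
    · have e1 : (x.2 : ℝ) * w ≤ u * w := mul_le_mul_of_nonpos_right h2 hw0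
      rcases le_total 0 (x.2 : ℝ) with hx | hx
      · have : (x.2 : ℝ) * y.1 ≤ x.2 * w := mul_le_mul_of_nonneg_left h3 hx
        linarith
      · have : (x.2 : ℝ) * y.2 ≤ x.2 * w := mul_le_mul_of_nonpos_left h4 hx
        linarith
  · rw [le_max_iff, le_max_iff, le_max_iff]
    by_contra hcon
    push Not at hcon
    obtain ⟨⟨c1, c2⟩, c3, c4⟩ := hcon
    rcases le_total 0 w with hw0 | hw0
    · have e1 : u * w ≤ (x.2 : ℝ) * w := mul_le_mul_of_nonneg_right h2 hw0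
      rcases le_total 0 (x.2 : ℝ) with hx | hx
      · have : (x.2 : ℝ) * w ≤ x.2 * y.2 := mul_le_mul_of_nonneg_left h4 hx
        linarith
      · have : (x.2 : ℝ) * w ≤ x.2 * y.1 := mul_le_mul_of_nonpos_left h3 hx
        linarith
    · have e1 : u * w ≤ (x.1 : ℝ) * w := mul_le_mul_of_nonpos_right h1 hw0
      rcases le_total 0 (x.1 : ℝ) with hx | hx
      · have : (x.1 : ℝ) * w ≤ x.1 * y.2 := mul_le_mul_of_nonneg_left h4 hx
        linarith
      · have : (x.1 : ℝ) * w ≤ x.1 * y.1 := mul_le_mul_of_nonpos_left h3 hx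
        linarith

theorem iv_sound {B : Fin 5 → ℚ × ℚ} {ρ : Fin 5 → ℝ} (h : ∀ i, ((B i).1 : ℝ) ≤ ρ i ∧ ρ i ≤ (B i).2) :
    ∀ e : Ex, ((e.iv B).1 : ℝ) ≤ e.eval ρ ∧ e.eval ρ ≤ (e.iv B).2
  | c q => ⟨le_rfl, le_rfl⟩
  | v i => h i
  | add a b => by
    have h1 := iv_sound h a
    have h2 := iv_sound h b
    simp only [iv, eval]; push_cast
    exact ⟨add_le_add h1.1 h2.1, add_le_add h1.2 h2.2⟩
  | sub a b => by
    have h1 := iv_sound h a
    have h2 := iv_sound h b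
    simp only [iv, eval]; push_cast
    exact ⟨sub_le_sub h1.1 h2.2, sub_le_sub h1.2 h2.1⟩
  | mul a b => mulI_sound (iv_sound h a) (iv_sound h b)

theorem pos_of_iv {B : Fin 5 → ℚ × ℚ} {ρ : Fin 5 → ℝ}
    (h : ∀ i, ((B i).1 : ℝ) ≤ ρ i ∧ ρ i ≤ (B i).2) (e : Ex) (he : 0 < (e.iv B).1) :
    0 < e.eval ρ := by
  have h1 := (iv_sound h e).1
  have h2 : (0 : ℝ) < ((e.iv B).1 : ℝ) := by exact_mod_cast he
  linarith

theorem neg_of_iv {B : Fin 5 → ℚ × ℚ} {ρ : Fin 5 → ℝ}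
    (h : ∀ i, ((B i).1 : ℝ) ≤ ρ i ∧ ρ i ≤ (B i).2) (e : Ex) (he : (e.iv B).2 < 0) :
    e.eval ρ < 0 := by
  have h1 := (iv_sound h e).2
  have h2 : ((e.iv B).2 : ℝ) < (0 : ℝ) := by exact_mod_cast he
  linarith

/-- determinant of a 4 by 4 array of expressions -/
def det4E (M : Fin 4 → Fin 4 → Ex) : Ex :=
  sub (add (sub
    (mul (M 0 0) (add (sub (mul (M 1 1) (sub (mul (M 2 2) (M 3 3)) (mul (M 2 3) (M 3 2))))
      (mul (M 1 2) (sub (mul (M 2 1) (M 3 3)) (mul (M 2 3) (M 3 1)))))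
      (mul (M 1 3) (sub (mul (M 2 1) (M 3 2)) (mul (M 2 2) (M 3 1))))))
    (mul (M 0 1) (add (sub (mul (M 1 0) (sub (mul (M 2 2) (M 3 3)) (mul (M 2 3) (M 3 2))))
      (mul (M 1 2) (sub (mul (M 2 0) (M 3 3)) (mul (M 2 3) (M 3 0)))))
      (mul (M 1 3) (sub (mul (M 2 0) (M 3 2)) (mul (M 2 2) (M 3 0)))))))
    (mul (M 0 2) (add (sub (mul (M 1 0) (sub (mul (M 2 1) (M 3 3)) (mul (M 2 3) (M 3 1))))
      (mul (M 1 1) (sub (mul (M 2 0) (M 3 3)) (mul (M 2 3) (M 3 0)))))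
      (mul (M 1 3) (sub (mul (M 2 0) (M 3 1)) (mul (M 2 1) (M 3 0)))))))
    (mul (M 0 3) (add (sub (mul (M 1 0) (sub (mul (M 2 1) (M 3 2)) (mul (M 2 2) (M 3 1))))
      (mul (M 1 1) (sub (mul (M 2 0) (M 3 2)) (mul (M 2 2) (M 3 0)))))
      (mul (M 1 2) (sub (mul (M 2 0) (M 3 1)) (mul (M 2 1) (M 3 0))))))

end Ex

end Pool.Agent.H19.Moeckel
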