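import Mathlib
import Pool.Agent.H19.Moeckel.Iv

/-! The three blocks as arrays of expressions and the sign checks. Variables: `v 0` is the square
root of two, `v 1` and `v 2` are the two inverse cubes, `v 3` the light mass, `v 4` the central mass. -/

set_option autoImplicit false

namespace Pool.Agent.H19.Moeckel

namespace Ex

instance : Add Ex := ⟨Ex.add⟩
instance : Sub Ex := ⟨Ex.sub⟩
instance : Mul Ex := ⟨Ex.mul⟩

theorem eval_add (ρ : Fin 5 → ℝ) (a b : Ex) : (a + b).eval ρ = a.eval ρ + b.eval ρ := rfl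
theorem eval_sub (ρ : Fin 5 → ℝ) (a b : Ex) : (a - b).eval ρ = a.eval ρ - b.eval ρ := rfl
theorem eval_mul (ρ : Fin 5 → ℝ) (a b : Ex) : (a * b).eval ρ = a.eval ρ * b.eval ρ := rfl
theorem eval_c (ρ : Fin 5 → ℝ) (q : ℚ) : (c q).eval ρ = (q : ℝ) := rfl
theorem eval_v (ρ : Fin 5 → ℝ) (i : Fin 5) : (v i).eval ρ = ρ i := rfl

/-- light coordinate -/
def sQ : ℚ := 177 / 250
/-- heavy mass -/
def m1Q : ℚ := 33 / 5000
/-- square of the short distance -/
def qaQ : ℚ := 18329 / 31250
/-- square of the long distance -/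
def qbQ : ℚ := 106829 / 31250
/-- the rational factor of the inverse cube of the radius of the light ring -/
def hQ : ℚ := 1 / (4 * sQ ^ 3)

/-- inverse cube of the radius of the light ring -/
def hE : Ex := c hQ * v 0
/-- first coefficient -/
def k1E : Ex := c ((1 - 2 * sQ) / qaQ) * v 1 + c ((1 + 2 * sQ) / qbQ) * v 2
/-- second coefficient -/
def k2E : Ex := c (sQ * (sQ - 1) / qaQ) * v 1 + c (sQ * (sQ + 1) / qbQ) * v 2
/-- third coefficient -/
def k3E : Ex := c ((1 - 2 * sQ ^ 2) / qaQ) * v 1 - c ((1 - 2 * sQ ^ 2) / qbQ) * v 2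
/-- fourth coefficient -/
def k4E : Ex := c ((1 - 4 * sQ + 2 * sQ ^ 2) / qaQ) * v 1 - c ((1 + 4 * sQ + 2 * sQ ^ 2) / qbQ) * v 2
/-- self force factor of a square -/
def SE : Ex := c (1 / 2) * v 0 + c (1 / 4)
/-- self force factor of a square, scaled to the light ring -/
def hSE : Ex := c hQ + c (hQ / 4) * v 0
/-- coefficient of the light mass in the heavy equation -/
def C1E : Ex := c (2 * (1 - sQ)) * v 1 + c (2 * (1 + sQ)) * v 2
/-- coefficient of the heavy mass in the light equation -/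
def eE : Ex := c (2 * sQ - 1) * v 1 + c (2 * sQ + 1) * v 2
/-- numerator of the light mass -/
def NE : Ex := c sQ - c sQ * hE * (c 1 - c m1Q * SE) - c m1Q * eE
/-- denominator of the light mass -/
def DE : Ex := c sQ * (hSE - hE * C1E)
/-- central mass from the light mass -/
def ME : Ex := c 1 - c m1Q * SE - v 3 * C1E

/-- block of the first mode -/
def K1E : Fin 4 → Fin 4 → Ex := ![
  ![c 1 + c (1 / 2) * v 4 + c (m1Q / 2) * v 0 + v 3 * (v 1 + v 2), c 0,
    c (3 / 2) * v 4 + c 3 * v 3 * k1E, c (-3) * v 3 * k1E],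
  ![c 0, c 1 + c (1 / 2) * v 4 * hE + v 3 * c hQ + c m1Q * (v 1 + v 2),
    c (-6 * m1Q) * k2E, c (3 / 2) * v 4 * hE + c (6 * m1Q) * k2E],
  ![c (3 / 2) * v 4 + c 3 * v 3 * k1E + c (6 * m1Q), c (-6) * v 3 * k2E + c 6 * v 3 * hE,
    c (1 + 2 * m1Q) + c (1 / 2) * v 4 + v 3 * (v 1 + v 2), c 2 * v 3 * hE - v 3 * (v 1 + v 2)],
  ![c (-3 * m1Q) * k1E + c (6 * m1Q), c (3 / 2) * v 4 * hE + c (6 * m1Q) * k2E + c 6 * v 3 * hE,
    c (2 * m1Q) - c m1Q * (v 1 + v 2),
    c 1 + c (1 / 2) * v 4 * hE + c m1Q * (v 1 + v 2) + c 2 * v 3 * hE]]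

/-- entry -/
def A11E : Ex := c (1 + m1Q / 8) + c (1 / 2) * v 4 + c (m1Q / 4) * v 0 + v 3 * (v 1 + v 2)
/-- entry -/
def A22E : Ex := c 1 + c (1 / 2) * v 4 * hE + v 3 * (c (hQ / 2) + c (hQ / 8) * v 0)
  + c m1Q * (v 1 + v 2)
/-- entry -/
def B11E : Ex := c (3 / 2) * v 4 + c m1Q * (c (3 / 8) - c (3 / 4) * v 0) + c 3 * v 3 * k1E
/-- entry -/
def B22E : Ex := c (3 / 2) * v 4 * hE + v 3 * (c (3 * hQ / 8) * v 0 - c (3 * hQ / 2))
  + c (6 * m1Q) * k2E
/-- entry -/
def C11E : Ex := c (3 / 2) * v 4 + c m1Q * (c (3 / 8) + c (3 / 4) * v 0) + c 3 * v 3 * k1E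
/-- entry -/
def C22E : Ex := c (3 / 2) * v 4 * hE + v 3 * (c (3 * hQ / 8) * v 0 + c (3 * hQ / 2))
  + c (6 * m1Q) * k2E

/-- block of the second mode -/
def K2E : Fin 4 → Fin 4 → Ex := ![
  ![A11E, c (-1) * v 3 * (v 1 - v 2), B11E, c (-3) * v 3 * k3E],
  ![c (-m1Q / 2) * (v 1 - v 2), A22E, c (-3 * m1Q / 2) * k3E, c (-1) * B22E],
  ![B11E, c (-3) * v 3 * k3E, A11E, c (-1) * v 3 * (v 1 - v 2)],
  ![c (-3 * m1Q / 2) * k3E, c (-1) * B22E, c (-m1Q / 2) * (v 1 - v 2), A22E]]

/-- entry -/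
def alE : Ex := A22E + c sQ * v 3 * (v 1 - v 2)
/-- entry -/
def beE : Ex := C22E + c (3 * sQ) * v 3 * k4E
/-- block of the mode zero -/
def K0E : Fin 2 → Fin 2 → Ex := ![![alE, beE], ![beE, alE]]

/-- the pencil as expressions -/
def penE {N : ℕ} (K : Fin N → Fin N → Ex) (σ : Fin N → ℚ) (l : ℚ) (a b : Fin N) : Ex :=
  if a = b then c (l ^ 2 + 2 * l * σ a) + K a b else K a b

/-- determinant of a 2 by 2 array of expressions -/
def det2E (M : Fin 2 → Fin 2 → Ex) : Ex := M 0 0 * M 1 1 - M 0 1 * M 1 0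

/-- signs -/
def sg4 : Fin 4 → ℚ := ![1, 1, -1, -1]
/-- signs -/
def sg2 : Fin 2 → ℚ := ![1, -1]

/-- rational enclosures -/
def BQ : Fin 5 → ℚ × ℚ := ![
  (14142135623730950 / 10 ^ 16, 14142135623730951 / 10 ^ 16),
  (22262138263301261 / 10 ^ 16, 22262138263301263 / 10 ^ 16),
  (1582126802462133 / 10 ^ 16, 1582126802462134 / 10 ^ 16),
  (2412604032215 / 10 ^ 15, 2412604032216 / 10 ^ 15),
  (989242544587187 / 10 ^ 15, 989242544587190 / 10 ^ 15)]

/-- sign test -/
def posQ (e : Ex) : Bool := decide (0 < (e.iv BQ).1)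
/-- sign test -/
def negQ (e : Ex) : Bool := decide ((e.iv BQ).2 < 0)

/-- quadratic form of the chosen direction, without the centre of mass correction -/
def QE : Ex := c (-157591 / 20000 * m1Q) * v 4 + c (-401783875 / 88723728) * v 4 * v 3 * v 0
  + c (38809 / 20000 * m1Q ^ 2) * v 0
  + c m1Q * v 3 * (c (16580326433 / 2291125000) * v 1 + c (92358628433 / 13353625000) * v 2)
  + c (1369000 / 616137) * v 3 * v 3 + c (78809 / 10000 * m1Q) + c (1607569 / 250000) * v 3
/-- total mass -/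
def MtE : Ex := v 4 + c (4 * m1Q) + c 4 * v 3
/-- first moment of the chosen direction -/
def PE : Ex := c (4 * m1Q) + c (181 / 50) * v 3
/-- the quadratic form times the total mass -/
def hessE : Ex := QE * MtE - PE * PE

theorem k1s0 : posQ (det4E (penE K1E sg4 (-2))) = true := by decide +kernel
theorem k1s1 : negQ (det4E (penE K1E sg4 (-9 / 10))) = true := by decide +kernel
theorem k1s2 : posQ (det4E (penE K1E sg4 (-7 / 10))) = true := by decide +kernel
theorem k1s3 : negQ (det4E (penE K1E sg4 0)) = true := by decide +kernel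
theorem k1s4 : posQ (det4E (penE K1E sg4 (6 / 1000))) = true := by decide +kernel
theorem k1s5 : negQ (det4E (penE K1E sg4 (3 / 10))) = true := by decide +kernel
theorem k1s6 : posQ (det4E (penE K1E sg4 (7 / 10))) = true := by decide +kernel
theorem k1s7 : negQ (det4E (penE K1E sg4 (9 / 10))) = true := by decide +kernel
theorem k1s8 : posQ (det4E (penE K1E sg4 2)) = true := by decide +kernel

theorem k2s0 : posQ (det4E (penE K2E sg4 (-2))) = true := by decide +kernel
theorem k2s1 : negQ (det4E (penE K2E sg4 (-9 / 10))) = true := by decide +kernel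
theorem k2s2 : posQ (det4E (penE K2E sg4 (-7 / 10))) = true := by decide +kernel
theorem k2s3 : negQ (det4E (penE K2E sg4 (-4 / 10))) = true := by decide +kernel
theorem k2s4 : posQ (det4E (penE K2E sg4 0)) = true := by decide +kernel
theorem k2s5 : negQ (det4E (penE K2E sg4 (4 / 10))) = true := by decide +kernel
theorem k2s6 : posQ (det4E (penE K2E sg4 (7 / 10))) = true := by decide +kernel
theorem k2s7 : negQ (det4E (penE K2E sg4 (9 / 10))) = true := by decide +kernel
theorem k2s8 : posQ (det4E (penE K2E sg4 2)) = true := by decide +kernel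

theorem k0s0 : posQ (det2E (penE K0E sg2 (-2))) = true := by decide +kernel
theorem k0s1 : negQ (det2E (penE K0E sg2 (-7 / 10))) = true := by decide +kernel
theorem k0s2 : posQ (det2E (penE K0E sg2 0)) = true := by decide +kernel
theorem k0s3 : negQ (det2E (penE K0E sg2 (7 / 10))) = true := by decide +kernel
theorem k0s4 : posQ (det2E (penE K0E sg2 2)) = true := by decide +kernel

theorem hess_neg : negQ hessE = true := by decide +kernel
theorem DE_neg : negQ DE = true := by decide +kernel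
theorem m2_lo : negQ (NE - c (2412604032215 / 10 ^ 15) * DE) = true := by decide +kernel
theorem m2_hi : posQ (NE - c (2412604032216 / 10 ^ 15) * DE) = true := by decide +kernel
theorem MM_lo : posQ (ME - c (989242544587187 / 10 ^ 15)) = true := by decide +kernel
theorem MM_hi : negQ (ME - c (989242544587190 / 10 ^ 15)) = true := by decide +kernel

end Ex

end Pool.Agent.H19.Moeckel
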