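import Mathlib
import Pool.Agent.H19.Moeckel.Mats

/-! The constants of the configuration and their enclosures. -/

set_option autoImplicit false

namespace Pool.Agent.H19.Moeckel

open Ex

/-- square root of two -/
noncomputable def rt : ℝ := Real.sqrt 2
/-- short distance -/
noncomputable def AA : ℝ := Real.sqrt (18329 / 31250)
/-- long distance -/
noncomputable def BB : ℝ := Real.sqrt (106829 / 31250)
/-- inverse cube of the short distance -/
noncomputable def aa : ℝ := (AA ^ 3)⁻¹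
/-- inverse cube of the long distance -/
noncomputable def bb : ℝ := (BB ^ 3)⁻¹

theorem rt_sq : rt ^ 2 = 2 := Real.sq_sqrt (by norm_num)
theorem AA_sq : AA ^ 2 = 18329 / 31250 := Real.sq_sqrt (by norm_num)
theorem BB_sq : BB ^ 2 = 106829 / 31250 := Real.sq_sqrt (by norm_num)
theorem rt_pos : 0 < rt := Real.sqrt_pos.mpr (by norm_num)
theorem AA_pos : 0 < AA := Real.sqrt_pos.mpr (by norm_num)
theorem BB_pos : 0 < BB := Real.sqrt_pos.mpr (by norm_num)

theorem aa_eq : aa = AA / (18329 / 31250) ^ 2 := by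
  unfold aa
  rw [← AA_sq]
  have := AA_pos
  field_simp

theorem bb_eq : bb = BB / (106829 / 31250) ^ 2 := by
  unfold bb
  rw [← BB_sq]
  have := BB_pos
  field_simp

theorem rt_bd : (14142135623730950 / 10 ^ 16 : ℝ) ≤ rt ∧ rt ≤ 14142135623730951 / 10 ^ 16 := by
  constructor
  · exact Real.le_sqrt_of_sq_le (by norm_num)
  · exact Real.sqrt_le_iff.mpr ⟨by norm_num, by norm_num⟩

theorem AA_bd : (76585116047440967 / 10 ^ 17 : ℝ) ≤ AA ∧ AA ≤ 76585116047440968 / 10 ^ 17 := by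
  constructor
  · exact Real.le_sqrt_of_sq_le (by norm_num)
  · exact Real.sqrt_le_iff.mpr ⟨by norm_num, by norm_num⟩

theorem BB_bd : (184892617483770833 / 10 ^ 17 : ℝ) ≤ BB ∧ BB ≤ 184892617483770834 / 10 ^ 17 := by
  constructor
  · exact Real.le_sqrt_of_sq_le (by norm_num)
  · exact Real.sqrt_le_iff.mpr ⟨by norm_num, by norm_num⟩

theorem aa_bd : (22262138263301261 / 10 ^ 16 : ℝ) ≤ aa ∧ aa ≤ 22262138263301263 / 10 ^ 16 := by
  rw [aa_eq]
  obtain ⟨h1, h2⟩ := AA_bd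
  constructor
  · rw [le_div_iff₀ (by norm_num)]
    refine le_trans ?_ h1
    norm_num
  · rw [div_le_iff₀ (by norm_num)]
    refine le_trans h2 ?_
    norm_num

theorem bb_bd : (1582126802462133 / 10 ^ 16 : ℝ) ≤ bb ∧ bb ≤ 1582126802462134 / 10 ^ 16 := by
  rw [bb_eq]
  obtain ⟨h1, h2⟩ := BB_bd
  constructor
  · rw [le_div_iff₀ (by norm_num)]
    refine le_trans ?_ h1
    norm_num
  · rw [div_le_iff₀ (by norm_num)]
    refine le_trans h2 ?_
    norm_num

/-- light mass -/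
noncomputable def m2 : ℝ := NE.eval ![rt, aa, bb, 0, 0] / DE.eval ![rt, aa, bb, 0, 0]

theorem bd0 : ∀ i, (((![BQ 0, BQ 1, BQ 2, (0, 0), (0, 0)] : Fin 5 → ℚ × ℚ) i).1 : ℝ)
      ≤ (![rt, aa, bb, 0, 0] : Fin 5 → ℝ) i ∧
    (![rt, aa, bb, 0, 0] : Fin 5 → ℝ) i
      ≤ (((![BQ 0, BQ 1, BQ 2, (0, 0), (0, 0)] : Fin 5 → ℚ × ℚ) i).2 : ℝ) := by
  intro i
  obtain ⟨h1, h2⟩ := rt_bd
  obtain ⟨h3, h4⟩ := aa_bd
  obtain ⟨h5, h6⟩ := bb_bd
  fin_cases i
  · simp [BQ]; constructor <;> linarith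
  · simp [BQ]; constructor <;> linarith
  · simp [BQ]; constructor <;> linarith
  · simp
  · simp

theorem iv_DE : (DE.iv ![BQ 0, BQ 1, BQ 2, (0, 0), (0, 0)]).2 < 0 := by decide +kernel
theorem iv_lo : ((NE - c (2412604032215 / 10 ^ 15) * DE).iv
    ![BQ 0, BQ 1, BQ 2, (0, 0), (0, 0)]).2 < 0 := by decide +kernel
theorem iv_hi : 0 < ((NE - c (2412604032216 / 10 ^ 15) * DE).iv
    ![BQ 0, BQ 1, BQ 2, (0, 0), (0, 0)]).1 := by decide +kernel

theorem DE_neg' : DE.eval ![rt, aa, bb, 0, 0] < 0 := neg_of_iv bd0 _ iv_DE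

theorem m2_bd : (2412604032215 / 10 ^ 15 : ℝ) ≤ m2 ∧ m2 ≤ 2412604032216 / 10 ^ 15 := by
  have hD := DE_neg'
  have h1 := neg_of_iv bd0 _ iv_lo
  have h2 := pos_of_iv bd0 _ iv_hi
  rw [eval_sub, eval_mul, eval_c] at h1 h2
  unfold m2
  constructor
  · rw [le_div_iff_of_neg hD]
    push_cast at h1
    linarith
  · rw [div_le_iff_of_neg hD]
    push_cast at h2
    linarith

/-- central mass -/
noncomputable def MM : ℝ := ME.eval ![rt, aa, bb, m2, 0]

theorem bd1 : ∀ i, (((![BQ 0, BQ 1, BQ 2, BQ 3, (0, 0)] : Fin 5 → ℚ × ℚ) i).1 : ℝ)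
      ≤ (![rt, aa, bb, m2, 0] : Fin 5 → ℝ) i ∧
    (![rt, aa, bb, m2, 0] : Fin 5 → ℝ) i
      ≤ (((![BQ 0, BQ 1, BQ 2, BQ 3, (0, 0)] : Fin 5 → ℚ × ℚ) i).2 : ℝ) := by
  intro i
  obtain ⟨h1, h2⟩ := rt_bd
  obtain ⟨h3, h4⟩ := aa_bd
  obtain ⟨h5, h6⟩ := bb_bd
  obtain ⟨h7, h8⟩ := m2_bd
  fin_cases i
  · simp [BQ]; constructor <;> linarith
  · simp [BQ]; constructor <;> linarith
  · simp [BQ]; constructor <;> linarith
  · simp [BQ]; constructor <;> linarith
  · simp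

theorem iv_Mlo : 0 < ((ME - c (989242544587187 / 10 ^ 15)).iv
    ![BQ 0, BQ 1, BQ 2, BQ 3, (0, 0)]).1 := by decide +kernel
theorem iv_Mhi : ((ME - c (989242544587190 / 10 ^ 15)).iv
    ![BQ 0, BQ 1, BQ 2, BQ 3, (0, 0)]).2 < 0 := by decide +kernel

theorem MM_bd : (989242544587187 / 10 ^ 15 : ℝ) ≤ MM ∧ MM ≤ 989242544587190 / 10 ^ 15 := by
  have h1 := pos_of_iv bd1 _ iv_Mlo
  have h2 := neg_of_iv bd1 _ iv_Mhi
  rw [eval_sub, eval_c] at h1 h2
  unfold MM
  push_cast at h1 h2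
  constructor
  · linarith
  · linarith

/-- the environment -/
noncomputable def env : Fin 5 → ℝ := ![rt, aa, bb, m2, MM]

theorem env0 : env 0 = rt := rfl
theorem env1 : env 1 = aa := rfl
theorem env2 : env 2 = bb := rfl
theorem env3 : env 3 = m2 := rfl
theorem env4 : env 4 = MM := rfl

theorem bd : ∀ i, ((BQ i).1 : ℝ) ≤ env i ∧ env i ≤ (BQ i).2 := by
  intro i
  obtain ⟨h1, h2⟩ := rt_bd
  obtain ⟨h3, h4⟩ := aa_bd
  obtain ⟨h5, h6⟩ := bb_bd
  obtain ⟨h7, h8⟩ := m2_bd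
  obtain ⟨h9, h10⟩ := MM_bd
  fin_cases i
  · simp [BQ, env]; constructor <;> linarith
  · simp [BQ, env]; constructor <;> linarith
  · simp [BQ, env]; constructor <;> linarith
  · simp [BQ, env]; constructor <;> linarith
  · simp [BQ, env]; constructor <;> linarith

theorem pos_of_posQ (e : Ex) (h : posQ e = true) : 0 < e.eval env :=
  pos_of_iv bd e (of_decide_eq_true h)

theorem neg_of_negQ (e : Ex) (h : negQ e = true) : e.eval env < 0 :=
  neg_of_iv bd e (of_decide_eq_true h)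

theorem m2_pos : 0 < m2 := by have := m2_bd.1; linarith
theorem MM_pos : 0 < MM := by have := MM_bd.1; linarith

/-- first equilibrium equation -/
theorem E1 : MM = 1 - 33 / 5000 * (rt / 2 + 1 / 4) - m2 * (2 * (1 - 177 / 250) * aa
    + 2 * (1 + 177 / 250) * bb) := by
  unfold MM
  simp only [ME, SE, C1E, m1Q, sQ, eval_add, eval_sub, eval_mul, eval_c, eval_v]
  simp
  ring

/-- second equilibrium equation -/
theorem E2 : (177 / 250 : ℝ) = 177 / 250 * (3906250 / 5545233 * rt) * MM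
    + m2 * (177 / 250) * (3906250 / 5545233 + 3906250 / 5545233 / 4 * rt)
    + 33 / 5000 * ((2 * (177 / 250) - 1) * aa + (2 * (177 / 250) + 1) * bb) := by
  have hD := DE_neg'
  have h1 : m2 * DE.eval ![rt, aa, bb, 0, 0] = NE.eval ![rt, aa, bb, 0, 0] :=
    div_mul_cancel₀ _ hD.ne
  have h2 := rt_sq
  simp only [DE, NE, hE, hSE, SE, C1E, eE, m1Q, sQ, hQ, eval_add, eval_sub, eval_mul, eval_c,
    eval_v] at h1
  simp at h1
  rw [E1]
  linear_combination (-1) * h1 + (0 : ℝ) * h2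

end Pool.Agent.H19.Moeckel
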