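import Mathlib

/-! First and second derivative of the Newtonian potential. -/

set_option autoImplicit false

namespace Pool.Agent.H19.Moeckel

open Filter Topology

section Pair

variable {E : Type*} [NormedAddCommGroup E] [NormedSpace ℝ E]

/-- distance of a pair -/
noncomputable def RR (A B : E →L[ℝ] ℝ) (q : E) : ℝ := Real.sqrt ((A q) ^ 2 + (B q) ^ 2)

theorem RR_pos {A B : E →L[ℝ] ℝ} {q : E} (h : 0 < (A q) ^ 2 + (B q) ^ 2) : 0 < RR A B q :=
  Real.sqrt_pos.mpr h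

theorem RR_hasFDerivAt {A B : E →L[ℝ] ℝ} {q : E} (h : 0 < (A q) ^ 2 + (B q) ^ 2) :
    HasFDerivAt (RR A B) ((RR A B q)⁻¹ • (A q • A + B q • B)) q := by
  have hA : HasFDerivAt (fun q => A q) A q := A.hasFDerivAt
  have hB : HasFDerivAt (fun q => B q) B q := B.hasFDerivAt
  have h1 : HasFDerivAt (fun x => (A x) ^ 2 + (B x) ^ 2) _ q := (hA.pow 2).add (hB.pow 2)
  have h2 := h1.sqrt h.ne'
  have hR := RR_pos h
  refine h2.congr_fderiv ?_
  ext v
  have e : Real.sqrt ((A q) ^ 2 + (B q) ^ 2) = RR A B q := rfl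
  rw [e]
  simp only [smul_apply, add_apply, smul_eq_mul]
  field_simp
  simp
  ring

theorem inv_comp {f : E → ℝ} {f' : E →L[ℝ] ℝ} {q : E} (hf : HasFDerivAt f f' q) (h0 : f q ≠ 0) :
    HasFDerivAt (fun q => (f q)⁻¹) ((-((f q) ^ 2)⁻¹) • f') q :=
  (hasDerivAt_inv h0).comp_hasFDerivAt q hf

/-- first derivative of the inverse distance -/
noncomputable def G1 (A B : E →L[ℝ] ℝ) (q : E) : E →L[ℝ] ℝ :=
  (-((RR A B q) ^ 3)⁻¹) • (A q • A + B q • B)

theorem inv_hasFDerivAt {A B : E →L[ℝ] ℝ} {q : E} (h : 0 < (A q) ^ 2 + (B q) ^ 2) :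
    HasFDerivAt (fun q => (RR A B q)⁻¹) (G1 A B q) q := by
  have hR := RR_pos h
  have h1 := inv_comp (RR_hasFDerivAt h) hR.ne'
  refine h1.congr_fderiv ?_
  ext v
  simp only [G1, smul_apply, add_apply, smul_eq_mul]
  field_simp

/-- second derivative of the inverse distance, as a bilinear expression -/
theorem G1_hasFDerivAt {A B : E →L[ℝ] ℝ} {q : E} (h : 0 < (A q) ^ 2 + (B q) ^ 2) :
    ∃ D : E →L[ℝ] (E →L[ℝ] ℝ), HasFDerivAt (G1 A B) D q ∧ ∀ v w : E,
      D v w = -((RR A B q) ^ 3)⁻¹ * (A v * A w + B v * B w)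
        + 3 * ((RR A B q) ^ 5)⁻¹ * (A q * A v + B q * B v) * (A q * A w + B q * B w) := by
  have hR := RR_pos h
  have h1 := inv_comp ((RR_hasFDerivAt h).pow 3) (pow_ne_zero 3 hR.ne')
  have h2 := h1.neg
  have hA : HasFDerivAt (fun q => A q • A) (A.smulRight A) q := by
    have := A.hasFDerivAt (x := q)
    exact this.smul_const A
  have hB : HasFDerivAt (fun q => B q • B) (B.smulRight B) q := by
    have := B.hasFDerivAt (x := q)
    exact this.smul_const B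
  have h3 := h2.smul (hA.add hB)
  refine ⟨_, h3, ?_⟩
  intro v w
  simp only [smul_apply, add_apply, smul_eq_mul, ContinuousLinearMap.smulRight_apply, neg_apply,
    Pi.add_apply, Pi.neg_apply, nsmul_eq_mul]
  field_simp
  ring

end Pair

section Potential

variable {n : ℕ}

/-- difference functional of a coordinate of two bodies -/
noncomputable def dd (i j : Fin n) (k : Fin 2) : (Fin n × Fin 2 → ℝ) →L[ℝ] ℝ :=
  ContinuousLinearMap.proj (R := ℝ) (φ := fun _ : Fin n × Fin 2 => ℝ) (i, k)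
    - ContinuousLinearMap.proj (R := ℝ) (φ := fun _ : Fin n × Fin 2 => ℝ) (j, k)

theorem dd_apply (i j : Fin n) (k : Fin 2) (q : Fin n × Fin 2 → ℝ) :
    dd i j k q = q (i, k) - q (j, k) := rfl

/-- distance of two bodies -/
noncomputable def dist2 (q : Fin n × Fin 2 → ℝ) (i j : Fin n) : ℝ :=
  Real.sqrt ((q (i, 0) - q (j, 0)) ^ 2 + (q (i, 1) - q (j, 1)) ^ 2)

theorem RR_dd (i j : Fin n) (q : Fin n × Fin 2 → ℝ) :
    RR (dd i j 0) (dd i j 1) q = dist2 q i j := rfl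

/-- gradient form of the potential -/
noncomputable def GU (m : Fin n → ℝ) (q : Fin n × Fin 2 → ℝ) : (Fin n × Fin 2 → ℝ) →L[ℝ] ℝ :=
  ∑ i : Fin n, ∑ j : Fin n, if i < j then (m i * m j) • G1 (dd i j 0) (dd i j 1) q else 0

theorem U_hasFDerivAt (m : Fin n → ℝ) (U : (Fin n × Fin 2 → ℝ) → ℝ)
    (hU : ∀ q : Fin n × Fin 2 → ℝ, U q = ∑ i : Fin n, ∑ j : Fin n,
      if i < j then m i * m j / Real.sqrt ((q (i, 0) - q (j, 0)) ^ 2 + (q (i, 1) - q (j, 1)) ^ 2)
      else 0) (q : Fin n × Fin 2 → ℝ)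
    (hq : ∀ i j : Fin n, i < j → 0 < (q (i, 0) - q (j, 0)) ^ 2 + (q (i, 1) - q (j, 1)) ^ 2) :
    HasFDerivAt U (GU m q) q := by
  have e : U = fun q => ∑ i : Fin n, ∑ j : Fin n,
      if i < j then (m i * m j) * (RR (dd i j 0) (dd i j 1) q)⁻¹ else 0 := by
    funext q; rw [hU q]; rfl
  rw [e]
  unfold GU
  apply HasFDerivAt.fun_sum
  intro i _
  apply HasFDerivAt.fun_sum
  intro j _
  by_cases hij : i < j
  · simp only [hij, if_true]
    exact (inv_hasFDerivAt (A := dd i j 0) (B := dd i j 1) (q := q) (hq i j hij)).const_mul _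
  · simp only [hij, if_false]
    exact hasFDerivAt_const _ _

theorem eventually_free (x : Fin n × Fin 2 → ℝ)
    (hx : ∀ i j : Fin n, i < j → 0 < (x (i, 0) - x (j, 0)) ^ 2 + (x (i, 1) - x (j, 1)) ^ 2) :
    ∀ᶠ q in 𝓝 x, ∀ i j : Fin n, i < j →
      0 < (q (i, 0) - q (j, 0)) ^ 2 + (q (i, 1) - q (j, 1)) ^ 2 := by
  rw [eventually_all]
  intro i
  rw [eventually_all]
  intro j
  by_cases hij : i < j
  · have hc : Continuous fun q : Fin n × Fin 2 → ℝ =>
        (q (i, 0) - q (j, 0)) ^ 2 + (q (i, 1) - q (j, 1)) ^ 2 := by fun_prop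
    have := hc.continuousAt.eventually (lt_mem_nhds (hx i j hij))
    filter_upwards [this] with q hq _
    exact hq
  · filter_upwards with q h
    exact absurd h hij

/-- the pair term of the second derivative -/
noncomputable def Phi (m : Fin n → ℝ) (x v w : Fin n × Fin 2 → ℝ) (i j : Fin n) : ℝ :=
  m i * m j * (-((dist2 x i j) ^ 3)⁻¹ * ((v (i, 0) - v (j, 0)) * (w (i, 0) - w (j, 0))
      + (v (i, 1) - v (j, 1)) * (w (i, 1) - w (j, 1)))
    + 3 * ((dist2 x i j) ^ 5)⁻¹ * ((x (i, 0) - x (j, 0)) * (v (i, 0) - v (j, 0))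
      + (x (i, 1) - x (j, 1)) * (v (i, 1) - v (j, 1)))
      * ((x (i, 0) - x (j, 0)) * (w (i, 0) - w (j, 0))
      + (x (i, 1) - x (j, 1)) * (w (i, 1) - w (j, 1))))

theorem U_second (m : Fin n → ℝ) (U : (Fin n × Fin 2 → ℝ) → ℝ)
    (hU : ∀ q : Fin n × Fin 2 → ℝ, U q = ∑ i : Fin n, ∑ j : Fin n,
      if i < j then m i * m j / Real.sqrt ((q (i, 0) - q (j, 0)) ^ 2 + (q (i, 1) - q (j, 1)) ^ 2)
      else 0) (x : Fin n × Fin 2 → ℝ)
    (hx : ∀ i j : Fin n, i < j → 0 < (x (i, 0) - x (j, 0)) ^ 2 + (x (i, 1) - x (j, 1)) ^ 2)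
    (v w : Fin n × Fin 2 → ℝ) :
    fderiv ℝ (fderiv ℝ U) x v w
      = ∑ i : Fin n, ∑ j : Fin n, if i < j then Phi m x v w i j else 0 := by
  have hev : fderiv ℝ U =ᶠ[𝓝 x] GU m := by
    filter_upwards [eventually_free x hx] with q hq
    exact (U_hasFDerivAt m U hU q hq).fderiv
  rw [hev.fderiv_eq]
  have hpair : ∀ i j : Fin n, ∃ D : (Fin n × Fin 2 → ℝ) →L[ℝ] ((Fin n × Fin 2 → ℝ) →L[ℝ] ℝ),
      i < j → (HasFDerivAt (G1 (dd i j 0) (dd i j 1)) D x ∧ ∀ v w : Fin n × Fin 2 → ℝ,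
      D v w = -((dist2 x i j) ^ 3)⁻¹ * ((v (i, 0) - v (j, 0)) * (w (i, 0) - w (j, 0))
      + (v (i, 1) - v (j, 1)) * (w (i, 1) - w (j, 1)))
    + 3 * ((dist2 x i j) ^ 5)⁻¹ * ((x (i, 0) - x (j, 0)) * (v (i, 0) - v (j, 0))
      + (x (i, 1) - x (j, 1)) * (v (i, 1) - v (j, 1)))
      * ((x (i, 0) - x (j, 0)) * (w (i, 0) - w (j, 0))
      + (x (i, 1) - x (j, 1)) * (w (i, 1) - w (j, 1)))) := by
    intro i j
    by_cases hij : i < j
    · obtain ⟨D, hD1, hD2⟩ := G1_hasFDerivAt (A := dd i j 0) (B := dd i j 1) (q := x) (hx i j hij)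
      exact ⟨D, fun _ => ⟨hD1, fun v w => hD2 v w⟩⟩
    · exact ⟨0, fun h => absurd h hij⟩
  choose D hD using hpair
  have hG : HasFDerivAt (GU m)
      (∑ i : Fin n, ∑ j : Fin n, if i < j then (m i * m j) • D i j else 0) x := by
    have e : GU m = fun q => ∑ i : Fin n, ∑ j : Fin n,
      if i < j then (m i * m j) • G1 (dd i j 0) (dd i j 1) q else 0 := rfl
    rw [e]
    apply HasFDerivAt.fun_sum
    intro i _
    apply HasFDerivAt.fun_sum
    intro j _
    by_cases hij : i < j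
    · simp only [hij, if_true]
      exact (hD i j hij).1.const_smul (m i * m j)
    · simp only [hij, if_false]
      exact hasFDerivAt_const _ _
  rw [hG.fderiv]
  simp only [sum_apply]
  apply Finset.sum_congr rfl
  intro i _
  apply Finset.sum_congr rfl
  intro j _
  by_cases hij : i < j
  · simp only [hij, if_true, smul_apply, smul_eq_mul]
    rw [(hD i j hij).2 v w]
    rfl
  · simp only [hij, if_false]
    rfl

end Potential

end Pool.Agent.H19.Moeckel
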