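import Mathlib
import Pool.Agent.H19.Moeckel.Deriv

/-! Component formulas for the derivatives of the potential. -/

set_option autoImplicit false

namespace Pool.Agent.H19.Moeckel

open Filter Topology

variable {n : ℕ}

theorem sum_lt_symm (F : Fin n → Fin n → ℝ) (hs : ∀ i j, F i j = F j i) (h0 : ∀ i, F i i = 0) :
    ∑ i, ∑ j, (if i < j then F i j else 0) = (1 / 2) * ∑ i, ∑ j, F i j := by
  have h1 : ∑ i, ∑ j, F i j = ∑ i, ∑ j, (if i < j then F i j else 0)
      + ∑ i, ∑ j, (if j < i then F i j else 0) := by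
    rw [← Finset.sum_add_distrib]
    apply Finset.sum_congr rfl
    intro i _
    rw [← Finset.sum_add_distrib]
    apply Finset.sum_congr rfl
    intro j _
    rcases lt_trichotomy i j with h | h | h
    · simp [h, not_lt.mpr h.le]
    · subst h; simp [h0]
    · simp [h, not_lt.mpr h.le]
  have h2 : ∑ i, ∑ j, (if j < i then F i j else 0) = ∑ i, ∑ j, (if i < j then F i j else 0) := by
    rw [Finset.sum_comm]
    apply Finset.sum_congr rfl
    intro i _
    apply Finset.sum_congr rfl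
    intro j _
    rw [hs j i]
  rw [h1, h2]; ring

theorem dist2_comm (x : Fin n × Fin 2 → ℝ) (i j : Fin n) : dist2 x i j = dist2 x j i := by
  unfold dist2
  congr 1
  ring

theorem single_val (a i : Fin n) (k l : Fin 2) :
    (Pi.single (a, k) (1 : ℝ) : Fin n × Fin 2 → ℝ) (i, l)
      = if i = a then (if l = k then 1 else 0) else 0 := by
  rw [Pi.single_apply]
  by_cases h1 : i = a
  · by_cases h2 : l = k
    · simp [h1, h2]
    · simp [h1, h2]
  · simp [h1]

/-- antisymmetric pair force used for the second derivative -/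
noncomputable def Psi (m : Fin n → ℝ) (x v : Fin n × Fin 2 → ℝ) (k : Fin 2) (i j : Fin n) : ℝ :=
  m i * m j * (-((dist2 x i j) ^ 3)⁻¹ * (v (i, k) - v (j, k))
    + 3 * ((dist2 x i j) ^ 5)⁻¹ * ((x (i, 0) - x (j, 0)) * (v (i, 0) - v (j, 0))
      + (x (i, 1) - x (j, 1)) * (v (i, 1) - v (j, 1))) * (x (i, k) - x (j, k)))

theorem Psi_anti (m : Fin n → ℝ) (x v : Fin n × Fin 2 → ℝ) (k : Fin 2) (i j : Fin n) :
    Psi m x v k j i = - Psi m x v k i j := by
  unfold Psi
  rw [dist2_comm x j i]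
  ring

theorem sum_single (F : Fin n → Fin n → ℝ) (hF : ∀ i j, F j i = - F i j) (a : Fin n) :
    (1 / 2) * ∑ i, ∑ j, (((if i = a then (1 : ℝ) else 0) - (if j = a then (1 : ℝ) else 0)) * F i j)
      = ∑ j, F a j := by
  have h1 : ∑ i, ∑ j, (((if i = a then (1 : ℝ) else 0) - (if j = a then (1 : ℝ) else 0)) * F i j)
      = ∑ i, ∑ j, ((if i = a then (1 : ℝ) else 0) * F i j)
        - ∑ i, ∑ j, ((if j = a then (1 : ℝ) else 0) * F i j) := by
    rw [← Finset.sum_sub_distrib]
    apply Finset.sum_congr rfl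
    intro i _
    rw [← Finset.sum_sub_distrib]
    apply Finset.sum_congr rfl
    intro j _
    ring
  have h2 : ∑ i, ∑ j, ((if i = a then (1 : ℝ) else 0) * F i j) = ∑ j, F a j := by
    rw [Finset.sum_eq_single a]
    · simp
    · intro b _ hb; simp [hb]
    · simp
  have h3 : ∑ i, ∑ j, ((if j = a then (1 : ℝ) else 0) * F i j) = - ∑ j, F a j := by
    rw [← Finset.sum_neg_distrib]
    apply Finset.sum_congr rfl
    intro i _
    rw [Finset.sum_eq_single a]
    · simp [hF a i]
    · intro b _ hb; simp [hb]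
    · simp
  rw [h1, h2, h3]; ring

theorem U_second_single (m : Fin n → ℝ) (U : (Fin n × Fin 2 → ℝ) → ℝ)
    (hU : ∀ q : Fin n × Fin 2 → ℝ, U q = ∑ i : Fin n, ∑ j : Fin n,
      if i < j then m i * m j / Real.sqrt ((q (i, 0) - q (j, 0)) ^ 2 + (q (i, 1) - q (j, 1)) ^ 2)
      else 0) (x : Fin n × Fin 2 → ℝ)
    (hx : ∀ i j : Fin n, i < j → 0 < (x (i, 0) - x (j, 0)) ^ 2 + (x (i, 1) - x (j, 1)) ^ 2)
    (v : Fin n × Fin 2 → ℝ) (a : Fin n) (k : Fin 2) :
    fderiv ℝ (fderiv ℝ U) x v (Pi.single (a, k) (1 : ℝ)) = ∑ j, Psi m x v k a j := by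
  rw [U_second m U hU x hx, sum_lt_symm]
  · rw [← sum_single (Psi m x v k) (fun i j => Psi_anti m x v k i j) a]
    congr 1
    apply Finset.sum_congr rfl
    intro i _
    apply Finset.sum_congr rfl
    intro j _
    unfold Phi Psi
    simp only [single_val]
    fin_cases k
    · simp; split_ifs <;> ring
    · simp; split_ifs <;> ring
  · intro i j
    unfold Phi
    rw [dist2_comm x j i]
    ring
  · intro i
    unfold Phi
    ring

theorem U_first_single (m : Fin n → ℝ) (U : (Fin n × Fin 2 → ℝ) → ℝ)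
    (hU : ∀ q : Fin n × Fin 2 → ℝ, U q = ∑ i : Fin n, ∑ j : Fin n,
      if i < j then m i * m j / Real.sqrt ((q (i, 0) - q (j, 0)) ^ 2 + (q (i, 1) - q (j, 1)) ^ 2)
      else 0) (x : Fin n × Fin 2 → ℝ)
    (hx : ∀ i j : Fin n, i < j → 0 < (x (i, 0) - x (j, 0)) ^ 2 + (x (i, 1) - x (j, 1)) ^ 2)
    (a : Fin n) (k : Fin 2) :
    fderiv ℝ U x (Pi.single (a, k) (1 : ℝ))
      = ∑ j, m a * m j * (-((dist2 x a j) ^ 3)⁻¹ * (x (a, k) - x (j, k))) := by
  rw [(U_hasFDerivAt m U hU x hx).fderiv]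
  unfold GU
  simp only [sum_apply]
  have e : ∀ i j : Fin n, (if i < j then (m i * m j) • G1 (dd i j 0) (dd i j 1) x else 0)
      (Pi.single (a, k) (1 : ℝ))
      = if i < j then m i * m j * (-((dist2 x i j) ^ 3)⁻¹ *
        ((x (i, 0) - x (j, 0)) * ((Pi.single (a, k) (1 : ℝ) : Fin n × Fin 2 → ℝ) (i, 0)
          - (Pi.single (a, k) (1 : ℝ) : Fin n × Fin 2 → ℝ) (j, 0))
        + (x (i, 1) - x (j, 1)) * ((Pi.single (a, k) (1 : ℝ) : Fin n × Fin 2 → ℝ) (i, 1)
          - (Pi.single (a, k) (1 : ℝ) : Fin n × Fin 2 → ℝ) (j, 1)))) else 0 := by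
    intro i j
    by_cases hij : i < j
    · simp only [hij, if_true]
      rfl
    · simp only [hij, if_false]
      rfl
  simp only [e]
  rw [sum_lt_symm]
  · rw [← sum_single (fun i j => m i * m j * (-((dist2 x i j) ^ 3)⁻¹ * (x (i, k) - x (j, k)))) _ a]
    · congr 1
      apply Finset.sum_congr rfl
      intro i _
      apply Finset.sum_congr rfl
      intro j _
      simp only [single_val]
      fin_cases k
      · simp; split_ifs <;> ring
      · simp; split_ifs <;> ring
    · intro i j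
      rw [dist2_comm x j i]
      ring
  · intro i j
    rw [dist2_comm x j i]
    ring
  · intro i
    ring

end Pool.Agent.H19.Moeckel
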