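import Mathlib
import Pool.Agent.H19.Moeckel.Deriv2
import Pool.Agent.H19.Moeckel.Consts

/-! The configuration, its distances, and the linearised acceleration in coordinates. -/

set_option autoImplicit false

namespace Pool.Agent.H19.Moeckel

open Ex

/-- rational coordinates of the bodies -/
def XQ : Fin 9 → Fin 2 → ℚ := ![![0, 0], ![1, 0], ![0, 1], ![(-1), 0], ![0, (-1)], ![(177 / 250), (177 / 250)], ![(-177 / 250), (177 / 250)], ![(-177 / 250), (-177 / 250)], ![(177 / 250), (-177 / 250)]]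

/-- distance classes -/
def cl : Fin 9 → Fin 9 → Fin 9 := ![![0, 1, 1, 1, 1, 2, 2, 2, 2], ![1, 0, 3, 4, 3, 7, 8, 8, 7], ![1, 3, 0, 3, 4, 7, 7, 8, 8], ![1, 4, 3, 0, 3, 8, 7, 7, 8], ![1, 3, 4, 3, 0, 8, 8, 7, 7], ![2, 7, 7, 8, 8, 0, 5, 6, 5], ![2, 8, 7, 7, 8, 5, 0, 5, 6], ![2, 8, 8, 7, 7, 6, 5, 0, 5], ![2, 7, 8, 8, 7, 5, 6, 5, 0]]

/-- squared distances of the classes -/
def q2 : Fin 9 → ℚ := ![0, 1, (31329 / 31250), 2, 4, (31329 / 15625), (62658 / 15625), (18329 / 31250), (106829 / 31250)]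

/-- inverse cubes of the classes -/
noncomputable def i3 : Fin 9 → ℝ := ![0, 1, ((3906250 / 5545233) * rt), (1 / 4 * rt), (1 / 8), (1953125 / 5545233), ((1953125 / 22180932) * rt), aa, bb]

/-- masses -/
noncomputable def m9 : Fin 9 → ℝ := ![MM, (33 / 5000), (33 / 5000), (33 / 5000), (33 / 5000), m2, m2, m2, m2]

/-- positions -/
noncomputable def xx (p : Fin 9 × Fin 2) : ℝ := (XQ p.1 p.2 : ℝ)

/-- direction coefficients -/
def CQ : Fin 9 → Fin 9 → Fin 2 → Fin 2 → ℚ := ![![![![0, 0], ![0, 0]], ![![2, 0], ![0, (-1)]], ![![(-1), 0], ![0, 2]], ![![2, 0], ![0, (-1)]], ![![(-1), 0], ![0, 2]], ![![(1 / 2), (3 / 2)], ![(3 / 2), (1 / 2)]], ![![(1 / 2), (-3 / 2)], ![(-3 / 2), (1 / 2)]], ![![(1 / 2), (3 / 2)], ![(3 / 2), (1 / 2)]], ![![(1 / 2), (-3 / 2)], ![(-3 / 2), (1 / 2)]]],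
  ![![![2, 0], ![0, (-1)]], ![![0, 0], ![0, 0]], ![![(1 / 2), (-3 / 2)], ![(-3 / 2), (1 / 2)]], ![![2, 0], ![0, (-1)]], ![![(1 / 2), (3 / 2)], ![(3 / 2), (1 / 2)]], ![![(-20671 / 36658), (-38763 / 36658)], ![(-38763 / 36658), (57329 / 36658)]], ![![(333329 / 213658), (-226737 / 213658)], ![(-226737 / 213658), (-119671 / 213658)]], ![![(333329 / 213658), (226737 / 213658)], ![(226737 / 213658), (-119671 / 213658)]], ![![(-20671 / 36658), (38763 / 36658)], ![(38763 / 36658), (57329 / 36658)]]],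
  ![![![(-1), 0], ![0, 2]], ![![(1 / 2), (-3 / 2)], ![(-3 / 2), (1 / 2)]], ![![0, 0], ![0, 0]], ![![(1 / 2), (3 / 2)], ![(3 / 2), (1 / 2)]], ![![(-1), 0], ![0, 2]], ![![(57329 / 36658), (-38763 / 36658)], ![(-38763 / 36658), (-20671 / 36658)]], ![![(57329 / 36658), (38763 / 36658)], ![(38763 / 36658), (-20671 / 36658)]], ![![(-119671 / 213658), (226737 / 213658)], ![(226737 / 213658), (333329 / 213658)]], ![![(-119671 / 213658), (-226737 / 213658)], ![(-226737 / 213658), (333329 / 213658)]]],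
  ![![![2, 0], ![0, (-1)]], ![![2, 0], ![0, (-1)]], ![![(1 / 2), (3 / 2)], ![(3 / 2), (1 / 2)]], ![![0, 0], ![0, 0]], ![![(1 / 2), (-3 / 2)], ![(-3 / 2), (1 / 2)]], ![![(333329 / 213658), (226737 / 213658)], ![(226737 / 213658), (-119671 / 213658)]], ![![(-20671 / 36658), (38763 / 36658)], ![(38763 / 36658), (57329 / 36658)]], ![![(-20671 / 36658), (-38763 / 36658)], ![(-38763 / 36658), (57329 / 36658)]], ![![(333329 / 213658), (-226737 / 213658)], ![(-226737 / 213658), (-119671 / 213658)]]],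
  ![![![(-1), 0], ![0, 2]], ![![(1 / 2), (3 / 2)], ![(3 / 2), (1 / 2)]], ![![(-1), 0], ![0, 2]], ![![(1 / 2), (-3 / 2)], ![(-3 / 2), (1 / 2)]], ![![0, 0], ![0, 0]], ![![(-119671 / 213658), (226737 / 213658)], ![(226737 / 213658), (333329 / 213658)]], ![![(-119671 / 213658), (-226737 / 213658)], ![(-226737 / 213658), (333329 / 213658)]], ![![(57329 / 36658), (-38763 / 36658)], ![(-38763 / 36658), (-20671 / 36658)]], ![![(57329 / 36658), (38763 / 36658)], ![(38763 / 36658), (-20671 / 36658)]]],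
  ![![![(1 / 2), (3 / 2)], ![(3 / 2), (1 / 2)]], ![![(-20671 / 36658), (-38763 / 36658)], ![(-38763 / 36658), (57329 / 36658)]], ![![(57329 / 36658), (-38763 / 36658)], ![(-38763 / 36658), (-20671 / 36658)]], ![![(333329 / 213658), (226737 / 213658)], ![(226737 / 213658), (-119671 / 213658)]], ![![(-119671 / 213658), (226737 / 213658)], ![(226737 / 213658), (333329 / 213658)]], ![![0, 0], ![0, 0]], ![![2, 0], ![0, (-1)]], ![![(1 / 2), (3 / 2)], ![(3 / 2), (1 / 2)]], ![![(-1), 0], ![0, 2]]],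
  ![![![(1 / 2), (-3 / 2)], ![(-3 / 2), (1 / 2)]], ![![(333329 / 213658), (-226737 / 213658)], ![(-226737 / 213658), (-119671 / 213658)]], ![![(57329 / 36658), (38763 / 36658)], ![(38763 / 36658), (-20671 / 36658)]], ![![(-20671 / 36658), (38763 / 36658)], ![(38763 / 36658), (57329 / 36658)]], ![![(-119671 / 213658), (-226737 / 213658)], ![(-226737 / 213658), (333329 / 213658)]], ![![2, 0], ![0, (-1)]], ![![0, 0], ![0, 0]], ![![(-1), 0], ![0, 2]], ![![(1 / 2), (-3 / 2)], ![(-3 / 2), (1 / 2)]]],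
  ![![![(1 / 2), (3 / 2)], ![(3 / 2), (1 / 2)]], ![![(333329 / 213658), (226737 / 213658)], ![(226737 / 213658), (-119671 / 213658)]], ![![(-119671 / 213658), (226737 / 213658)], ![(226737 / 213658), (333329 / 213658)]], ![![(-20671 / 36658), (-38763 / 36658)], ![(-38763 / 36658), (57329 / 36658)]], ![![(57329 / 36658), (-38763 / 36658)], ![(-38763 / 36658), (-20671 / 36658)]], ![![(1 / 2), (3 / 2)], ![(3 / 2), (1 / 2)]], ![![(-1), 0], ![0, 2]], ![![0, 0], ![0, 0]], ![![2, 0], ![0, (-1)]]],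
  ![![![(1 / 2), (-3 / 2)], ![(-3 / 2), (1 / 2)]], ![![(-20671 / 36658), (38763 / 36658)], ![(38763 / 36658), (57329 / 36658)]], ![![(-119671 / 213658), (-226737 / 213658)], ![(-226737 / 213658), (333329 / 213658)]], ![![(333329 / 213658), (-226737 / 213658)], ![(-226737 / 213658), (-119671 / 213658)]], ![![(57329 / 36658), (38763 / 36658)], ![(38763 / 36658), (-20671 / 36658)]], ![![(-1), 0], ![0, 2]], ![![(1 / 2), (-3 / 2)], ![(-3 / 2), (1 / 2)]], ![![2, 0], ![0, (-1)]], ![![0, 0], ![0, 0]]]]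

theorem cl_ok : ∀ i j : Fin 9, (XQ i 0 - XQ j 0) ^ 2 + (XQ i 1 - XQ j 1) ^ 2 = q2 (cl i j) := by
  decide +kernel

theorem q2_pos : ∀ i j : Fin 9, i ≠ j → 0 < q2 (cl i j) := by decide +kernel

theorem CQ_ok : ∀ i j : Fin 9, ∀ k l : Fin 2, i ≠ j →
    CQ i j k l = 3 * (XQ i k - XQ j k) * (XQ i l - XQ j l) / q2 (cl i j)
      - (if k = l then 1 else 0) := by decide +kernel

theorem inv3 {q d t : ℝ} (hd : 0 ≤ d) (hq : d ^ 2 = q) (ht : t * d ^ 3 = 1) :
    ((Real.sqrt q) ^ 3)⁻¹ = t := by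
  rw [← hq, Real.sqrt_sq hd]
  exact (eq_inv_of_mul_eq_one_left ht).symm

theorem i3_ok : ∀ c : Fin 9, ((Real.sqrt (q2 c : ℝ)) ^ 3)⁻¹ = i3 c := by
  have hr2 := rt_sq
  have hr0 := rt_pos
  intro c
  fin_cases c
  · simp [q2, i3]
  · simp [q2, i3]
  · show ((Real.sqrt ((31329 / 31250 : ℚ) : ℝ)) ^ 3)⁻¹ = 3906250 / 5545233 * rt
    apply inv3 (d := 177 / 250 * rt) (by positivity)
    · push_cast; linear_combination (177 / 250) ^ 2 * hr2
    · linear_combination (3906250 / 5545233) * (177 / 250) ^ 3 * (rt ^ 2 + 2) * hr2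
  · show ((Real.sqrt ((2 : ℚ) : ℝ)) ^ 3)⁻¹ = 1 / 4 * rt
    apply inv3 (d := rt) (by positivity)
    · push_cast; linear_combination hr2
    · linear_combination (1 / 4) * (rt ^ 2 + 2) * hr2
  · show ((Real.sqrt ((4 : ℚ) : ℝ)) ^ 3)⁻¹ = 1 / 8
    apply inv3 (d := 2) (by positivity)
    · push_cast; norm_num
    · norm_num
  · show ((Real.sqrt ((31329 / 15625 : ℚ) : ℝ)) ^ 3)⁻¹ = 1953125 / 5545233
    apply inv3 (d := 177 / 125) (by positivity)
    · push_cast; norm_num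
    · norm_num
  · show ((Real.sqrt ((62658 / 15625 : ℚ) : ℝ)) ^ 3)⁻¹ = 1953125 / 22180932 * rt
    apply inv3 (d := 177 / 125 * rt) (by positivity)
    · push_cast; linear_combination (177 / 125) ^ 2 * hr2
    · linear_combination (1953125 / 22180932) * (177 / 125) ^ 3 * (rt ^ 2 + 2) * hr2
  · show ((Real.sqrt ((18329 / 31250 : ℚ) : ℝ)) ^ 3)⁻¹ = aa
    have e : ((18329 / 31250 : ℚ) : ℝ) = 18329 / 31250 := by push_cast; rfl
    rw [e]; rfl
  · show ((Real.sqrt ((106829 / 31250 : ℚ) : ℝ)) ^ 3)⁻¹ = bb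
    have e : ((106829 / 31250 : ℚ) : ℝ) = 106829 / 31250 := by push_cast; rfl
    rw [e]; rfl

theorem sq_pos_of_ne (i j : Fin 9) (h : i ≠ j) :
    (0 : ℝ) < (xx (i, 0) - xx (j, 0)) ^ 2 + (xx (i, 1) - xx (j, 1)) ^ 2 := by
  have h1 := cl_ok i j
  have h2 := q2_pos i j h
  rw [← h1] at h2
  unfold xx
  exact_mod_cast h2

theorem dist3 (i j : Fin 9) : ((dist2 xx i j) ^ 3)⁻¹ = i3 (cl i j) := by
  rw [← i3_ok]
  unfold dist2 xx
  have h1 := cl_ok i j
  rw [← h1]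
  push_cast
  rfl

theorem dist5 (i j : Fin 9) : ((dist2 xx i j) ^ 5)⁻¹ = i3 (cl i j) / (q2 (cl i j) : ℝ) := by
  rw [← dist3]
  have h1 := cl_ok i j
  have h3 : (dist2 xx i j) ^ 2 = (q2 (cl i j) : ℝ) := by
    unfold dist2
    rw [Real.sq_sqrt (by positivity), ← h1]
    unfold xx
    push_cast
    rfl
  rw [← h3, pow_succ (dist2 xx i j) 4, div_eq_mul_inv, ← mul_inv]
  congr 1
  ring

/-- linearised force of one body on another, per unit masses -/
noncomputable def pf (v : Fin 9 × Fin 2 → ℝ) (a j : Fin 9) (k : Fin 2) : ℝ :=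
  i3 (cl a j) * ((CQ a j k 0 : ℝ) * (v (a, 0) - v (j, 0)) + (CQ a j k 1 : ℝ) * (v (a, 1) - v (j, 1)))

theorem Psi_eq (v : Fin 9 × Fin 2 → ℝ) (k : Fin 2) (a j : Fin 9) :
    Psi m9 xx v k a j = m9 a * (m9 j * pf v a j k) := by
  by_cases h : a = j
  · subst h
    unfold Psi pf
    ring
  · unfold Psi pf
    rw [dist3, dist5]
    have hq : (q2 (cl a j) : ℝ) ≠ 0 := by
      have := q2_pos a j h
      exact_mod_cast this.ne'
    rw [CQ_ok a j k 0 h, CQ_ok a j k 1 h]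
    unfold xx
    push_cast
    fin_cases k
    · simp
      field_simp
      ring
    · simp
      field_simp
      ring

/-- the linearised acceleration -/
noncomputable def acc (v : Fin 9 × Fin 2 → ℝ) (p : Fin 9 × Fin 2) : ℝ :=
  v p + ∑ j, m9 j * pf v p.1 j p.2

theorem sum9 (f : Fin 9 → ℝ) :
    ∑ i, f i = f 0 + f 1 + f 2 + f 3 + f 4 + f 5 + f 6 + f 7 + f 8 := by
  rw [Fin.sum_univ_castSucc, Fin.sum_univ_eight]
  rfl

theorem m9_pos : ∀ i, 0 < m9 i := by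
  have h1 := MM_pos
  have h2 := m2_pos
  intro i
  fin_cases i
  · exact h1
  · show (0 : ℝ) < 33 / 5000; norm_num
  · show (0 : ℝ) < 33 / 5000; norm_num
  · show (0 : ℝ) < 33 / 5000; norm_num
  · show (0 : ℝ) < 33 / 5000; norm_num
  · exact h2
  · exact h2
  · exact h2
  · exact h2

end Pool.Agent.H19.Moeckel
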