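import Mathlib
import Pool.Agent.H19.Moeckel.Geo

/-! Explicit components of the linearised acceleration. -/

set_option autoImplicit false

namespace Pool.Agent.H19.Moeckel

theorem acc_0_0 (v : Fin 9 × Fin 2 → ℝ) : acc v (0, 0) = v (0, 0)
    + ((33 / 5000) * (1 * (2 * (v (0, 0) - v (1, 0))))
    + (33 / 5000) * (1 * ((-1) * (v (0, 0) - v (2, 0))))
    + (33 / 5000) * (1 * (2 * (v (0, 0) - v (3, 0))))
    + (33 / 5000) * (1 * ((-1) * (v (0, 0) - v (4, 0))))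
    + m2 * (((3906250 / 5545233) * rt) * ((1 / 2) * (v (0, 0) - v (5, 0)) + (3 / 2) * (v (0, 1) - v (5, 1))))
    + m2 * (((3906250 / 5545233) * rt) * ((1 / 2) * (v (0, 0) - v (6, 0)) + (-3 / 2) * (v (0, 1) - v (6, 1))))
    + m2 * (((3906250 / 5545233) * rt) * ((1 / 2) * (v (0, 0) - v (7, 0)) + (3 / 2) * (v (0, 1) - v (7, 1))))
    + m2 * (((3906250 / 5545233) * rt) * ((1 / 2) * (v (0, 0) - v (8, 0)) + (-3 / 2) * (v (0, 1) - v (8, 1))))) := by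
  unfold acc
  rw [sum9]
  simp [pf, i3, cl, CQ, m9]

theorem acc_0_1 (v : Fin 9 × Fin 2 → ℝ) : acc v (0, 1) = v (0, 1)
    + ((33 / 5000) * (1 * ((-1) * (v (0, 1) - v (1, 1))))
    + (33 / 5000) * (1 * (2 * (v (0, 1) - v (2, 1))))
    + (33 / 5000) * (1 * ((-1) * (v (0, 1) - v (3, 1))))
    + (33 / 5000) * (1 * (2 * (v (0, 1) - v (4, 1))))
    + m2 * (((3906250 / 5545233) * rt) * ((3 / 2) * (v (0, 0) - v (5, 0)) + (1 / 2) * (v (0, 1) - v (5, 1))))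
    + m2 * (((3906250 / 5545233) * rt) * ((-3 / 2) * (v (0, 0) - v (6, 0)) + (1 / 2) * (v (0, 1) - v (6, 1))))
    + m2 * (((3906250 / 5545233) * rt) * ((3 / 2) * (v (0, 0) - v (7, 0)) + (1 / 2) * (v (0, 1) - v (7, 1))))
    + m2 * (((3906250 / 5545233) * rt) * ((-3 / 2) * (v (0, 0) - v (8, 0)) + (1 / 2) * (v (0, 1) - v (8, 1))))) := by
  unfold acc
  rw [sum9]
  simp [pf, i3, cl, CQ, m9]

theorem acc_1_0 (v : Fin 9 × Fin 2 → ℝ) : acc v (1, 0) = v (1, 0)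
    + (MM * (1 * (2 * (v (1, 0) - v (0, 0))))
    + (33 / 5000) * ((1 / 4 * rt) * ((1 / 2) * (v (1, 0) - v (2, 0)) + (-3 / 2) * (v (1, 1) - v (2, 1))))
    + (33 / 5000) * ((1 / 8) * (2 * (v (1, 0) - v (3, 0))))
    + (33 / 5000) * ((1 / 4 * rt) * ((1 / 2) * (v (1, 0) - v (4, 0)) + (3 / 2) * (v (1, 1) - v (4, 1))))
    + m2 * (aa * ((-20671 / 36658) * (v (1, 0) - v (5, 0)) + (-38763 / 36658) * (v (1, 1) - v (5, 1))))
    + m2 * (bb * ((333329 / 213658) * (v (1, 0) - v (6, 0)) + (-226737 / 213658) * (v (1, 1) - v (6, 1))))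
    + m2 * (bb * ((333329 / 213658) * (v (1, 0) - v (7, 0)) + (226737 / 213658) * (v (1, 1) - v (7, 1))))
    + m2 * (aa * ((-20671 / 36658) * (v (1, 0) - v (8, 0)) + (38763 / 36658) * (v (1, 1) - v (8, 1))))) := by
  unfold acc
  rw [sum9]
  simp [pf, i3, cl, CQ, m9]

theorem acc_1_1 (v : Fin 9 × Fin 2 → ℝ) : acc v (1, 1) = v (1, 1)
    + (MM * (1 * ((-1) * (v (1, 1) - v (0, 1))))
    + (33 / 5000) * ((1 / 4 * rt) * ((-3 / 2) * (v (1, 0) - v (2, 0)) + (1 / 2) * (v (1, 1) - v (2, 1))))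
    + (33 / 5000) * ((1 / 8) * ((-1) * (v (1, 1) - v (3, 1))))
    + (33 / 5000) * ((1 / 4 * rt) * ((3 / 2) * (v (1, 0) - v (4, 0)) + (1 / 2) * (v (1, 1) - v (4, 1))))
    + m2 * (aa * ((-38763 / 36658) * (v (1, 0) - v (5, 0)) + (57329 / 36658) * (v (1, 1) - v (5, 1))))
    + m2 * (bb * ((-226737 / 213658) * (v (1, 0) - v (6, 0)) + (-119671 / 213658) * (v (1, 1) - v (6, 1))))
    + m2 * (bb * ((226737 / 213658) * (v (1, 0) - v (7, 0)) + (-119671 / 213658) * (v (1, 1) - v (7, 1))))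
    + m2 * (aa * ((38763 / 36658) * (v (1, 0) - v (8, 0)) + (57329 / 36658) * (v (1, 1) - v (8, 1))))) := by
  unfold acc
  rw [sum9]
  simp [pf, i3, cl, CQ, m9]

theorem acc_2_0 (v : Fin 9 × Fin 2 → ℝ) : acc v (2, 0) = v (2, 0)
    + (MM * (1 * ((-1) * (v (2, 0) - v (0, 0))))
    + (33 / 5000) * ((1 / 4 * rt) * ((1 / 2) * (v (2, 0) - v (1, 0)) + (-3 / 2) * (v (2, 1) - v (1, 1))))
    + (33 / 5000) * ((1 / 4 * rt) * ((1 / 2) * (v (2, 0) - v (3, 0)) + (3 / 2) * (v (2, 1) - v (3, 1))))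
    + (33 / 5000) * ((1 / 8) * ((-1) * (v (2, 0) - v (4, 0))))
    + m2 * (aa * ((57329 / 36658) * (v (2, 0) - v (5, 0)) + (-38763 / 36658) * (v (2, 1) - v (5, 1))))
    + m2 * (aa * ((57329 / 36658) * (v (2, 0) - v (6, 0)) + (38763 / 36658) * (v (2, 1) - v (6, 1))))
    + m2 * (bb * ((-119671 / 213658) * (v (2, 0) - v (7, 0)) + (226737 / 213658) * (v (2, 1) - v (7, 1))))
    + m2 * (bb * ((-119671 / 213658) * (v (2, 0) - v (8, 0)) + (-226737 / 213658) * (v (2, 1) - v (8, 1))))) := by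
  unfold acc
  rw [sum9]
  simp [pf, i3, cl, CQ, m9]

theorem acc_2_1 (v : Fin 9 × Fin 2 → ℝ) : acc v (2, 1) = v (2, 1)
    + (MM * (1 * (2 * (v (2, 1) - v (0, 1))))
    + (33 / 5000) * ((1 / 4 * rt) * ((-3 / 2) * (v (2, 0) - v (1, 0)) + (1 / 2) * (v (2, 1) - v (1, 1))))
    + (33 / 5000) * ((1 / 4 * rt) * ((3 / 2) * (v (2, 0) - v (3, 0)) + (1 / 2) * (v (2, 1) - v (3, 1))))
    + (33 / 5000) * ((1 / 8) * (2 * (v (2, 1) - v (4, 1))))
    + m2 * (aa * ((-38763 / 36658) * (v (2, 0) - v (5, 0)) + (-20671 / 36658) * (v (2, 1) - v (5, 1))))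
    + m2 * (aa * ((38763 / 36658) * (v (2, 0) - v (6, 0)) + (-20671 / 36658) * (v (2, 1) - v (6, 1))))
    + m2 * (bb * ((226737 / 213658) * (v (2, 0) - v (7, 0)) + (333329 / 213658) * (v (2, 1) - v (7, 1))))
    + m2 * (bb * ((-226737 / 213658) * (v (2, 0) - v (8, 0)) + (333329 / 213658) * (v (2, 1) - v (8, 1))))) := by
  unfold acc
  rw [sum9]
  simp [pf, i3, cl, CQ, m9]

theorem acc_3_0 (v : Fin 9 × Fin 2 → ℝ) : acc v (3, 0) = v (3, 0)
    + (MM * (1 * (2 * (v (3, 0) - v (0, 0))))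
    + (33 / 5000) * ((1 / 8) * (2 * (v (3, 0) - v (1, 0))))
    + (33 / 5000) * ((1 / 4 * rt) * ((1 / 2) * (v (3, 0) - v (2, 0)) + (3 / 2) * (v (3, 1) - v (2, 1))))
    + (33 / 5000) * ((1 / 4 * rt) * ((1 / 2) * (v (3, 0) - v (4, 0)) + (-3 / 2) * (v (3, 1) - v (4, 1))))
    + m2 * (bb * ((333329 / 213658) * (v (3, 0) - v (5, 0)) + (226737 / 213658) * (v (3, 1) - v (5, 1))))
    + m2 * (aa * ((-20671 / 36658) * (v (3, 0) - v (6, 0)) + (38763 / 36658) * (v (3, 1) - v (6, 1))))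
    + m2 * (aa * ((-20671 / 36658) * (v (3, 0) - v (7, 0)) + (-38763 / 36658) * (v (3, 1) - v (7, 1))))
    + m2 * (bb * ((333329 / 213658) * (v (3, 0) - v (8, 0)) + (-226737 / 213658) * (v (3, 1) - v (8, 1))))) := by
  unfold acc
  rw [sum9]
  simp [pf, i3, cl, CQ, m9]

theorem acc_3_1 (v : Fin 9 × Fin 2 → ℝ) : acc v (3, 1) = v (3, 1)
    + (MM * (1 * ((-1) * (v (3, 1) - v (0, 1))))
    + (33 / 5000) * ((1 / 8) * ((-1) * (v (3, 1) - v (1, 1))))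
    + (33 / 5000) * ((1 / 4 * rt) * ((3 / 2) * (v (3, 0) - v (2, 0)) + (1 / 2) * (v (3, 1) - v (2, 1))))
    + (33 / 5000) * ((1 / 4 * rt) * ((-3 / 2) * (v (3, 0) - v (4, 0)) + (1 / 2) * (v (3, 1) - v (4, 1))))
    + m2 * (bb * ((226737 / 213658) * (v (3, 0) - v (5, 0)) + (-119671 / 213658) * (v (3, 1) - v (5, 1))))
    + m2 * (aa * ((38763 / 36658) * (v (3, 0) - v (6, 0)) + (57329 / 36658) * (v (3, 1) - v (6, 1))))
    + m2 * (aa * ((-38763 / 36658) * (v (3, 0) - v (7, 0)) + (57329 / 36658) * (v (3, 1) - v (7, 1))))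
    + m2 * (bb * ((-226737 / 213658) * (v (3, 0) - v (8, 0)) + (-119671 / 213658) * (v (3, 1) - v (8, 1))))) := by
  unfold acc
  rw [sum9]
  simp [pf, i3, cl, CQ, m9]

theorem acc_4_0 (v : Fin 9 × Fin 2 → ℝ) : acc v (4, 0) = v (4, 0)
    + (MM * (1 * ((-1) * (v (4, 0) - v (0, 0))))
    + (33 / 5000) * ((1 / 4 * rt) * ((1 / 2) * (v (4, 0) - v (1, 0)) + (3 / 2) * (v (4, 1) - v (1, 1))))
    + (33 / 5000) * ((1 / 8) * ((-1) * (v (4, 0) - v (2, 0))))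
    + (33 / 5000) * ((1 / 4 * rt) * ((1 / 2) * (v (4, 0) - v (3, 0)) + (-3 / 2) * (v (4, 1) - v (3, 1))))
    + m2 * (bb * ((-119671 / 213658) * (v (4, 0) - v (5, 0)) + (226737 / 213658) * (v (4, 1) - v (5, 1))))
    + m2 * (bb * ((-119671 / 213658) * (v (4, 0) - v (6, 0)) + (-226737 / 213658) * (v (4, 1) - v (6, 1))))
    + m2 * (aa * ((57329 / 36658) * (v (4, 0) - v (7, 0)) + (-38763 / 36658) * (v (4, 1) - v (7, 1))))
    + m2 * (aa * ((57329 / 36658) * (v (4, 0) - v (8, 0)) + (38763 / 36658) * (v (4, 1) - v (8, 1))))) := by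
  unfold acc
  rw [sum9]
  simp [pf, i3, cl, CQ, m9]

theorem acc_4_1 (v : Fin 9 × Fin 2 → ℝ) : acc v (4, 1) = v (4, 1)
    + (MM * (1 * (2 * (v (4, 1) - v (0, 1))))
    + (33 / 5000) * ((1 / 4 * rt) * ((3 / 2) * (v (4, 0) - v (1, 0)) + (1 / 2) * (v (4, 1) - v (1, 1))))
    + (33 / 5000) * ((1 / 8) * (2 * (v (4, 1) - v (2, 1))))
    + (33 / 5000) * ((1 / 4 * rt) * ((-3 / 2) * (v (4, 0) - v (3, 0)) + (1 / 2) * (v (4, 1) - v (3, 1))))
    + m2 * (bb * ((226737 / 213658) * (v (4, 0) - v (5, 0)) + (333329 / 213658) * (v (4, 1) - v (5, 1))))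
    + m2 * (bb * ((-226737 / 213658) * (v (4, 0) - v (6, 0)) + (333329 / 213658) * (v (4, 1) - v (6, 1))))
    + m2 * (aa * ((-38763 / 36658) * (v (4, 0) - v (7, 0)) + (-20671 / 36658) * (v (4, 1) - v (7, 1))))
    + m2 * (aa * ((38763 / 36658) * (v (4, 0) - v (8, 0)) + (-20671 / 36658) * (v (4, 1) - v (8, 1))))) := by
  unfold acc
  rw [sum9]
  simp [pf, i3, cl, CQ, m9]

theorem acc_5_0 (v : Fin 9 × Fin 2 → ℝ) : acc v (5, 0) = v (5, 0)
    + (MM * (((3906250 / 5545233) * rt) * ((1 / 2) * (v (5, 0) - v (0, 0)) + (3 / 2) * (v (5, 1) - v (0, 1))))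
    + (33 / 5000) * (aa * ((-20671 / 36658) * (v (5, 0) - v (1, 0)) + (-38763 / 36658) * (v (5, 1) - v (1, 1))))
    + (33 / 5000) * (aa * ((57329 / 36658) * (v (5, 0) - v (2, 0)) + (-38763 / 36658) * (v (5, 1) - v (2, 1))))
    + (33 / 5000) * (bb * ((333329 / 213658) * (v (5, 0) - v (3, 0)) + (226737 / 213658) * (v (5, 1) - v (3, 1))))
    + (33 / 5000) * (bb * ((-119671 / 213658) * (v (5, 0) - v (4, 0)) + (226737 / 213658) * (v (5, 1) - v (4, 1))))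
    + m2 * ((1953125 / 5545233) * (2 * (v (5, 0) - v (6, 0))))
    + m2 * (((1953125 / 22180932) * rt) * ((1 / 2) * (v (5, 0) - v (7, 0)) + (3 / 2) * (v (5, 1) - v (7, 1))))
    + m2 * ((1953125 / 5545233) * ((-1) * (v (5, 0) - v (8, 0))))) := by
  unfold acc
  rw [sum9]
  simp [pf, i3, cl, CQ, m9]

theorem acc_5_1 (v : Fin 9 × Fin 2 → ℝ) : acc v (5, 1) = v (5, 1)
    + (MM * (((3906250 / 5545233) * rt) * ((3 / 2) * (v (5, 0) - v (0, 0)) + (1 / 2) * (v (5, 1) - v (0, 1))))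
    + (33 / 5000) * (aa * ((-38763 / 36658) * (v (5, 0) - v (1, 0)) + (57329 / 36658) * (v (5, 1) - v (1, 1))))
    + (33 / 5000) * (aa * ((-38763 / 36658) * (v (5, 0) - v (2, 0)) + (-20671 / 36658) * (v (5, 1) - v (2, 1))))
    + (33 / 5000) * (bb * ((226737 / 213658) * (v (5, 0) - v (3, 0)) + (-119671 / 213658) * (v (5, 1) - v (3, 1))))
    + (33 / 5000) * (bb * ((226737 / 213658) * (v (5, 0) - v (4, 0)) + (333329 / 213658) * (v (5, 1) - v (4, 1))))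
    + m2 * ((1953125 / 5545233) * ((-1) * (v (5, 1) - v (6, 1))))
    + m2 * (((1953125 / 22180932) * rt) * ((3 / 2) * (v (5, 0) - v (7, 0)) + (1 / 2) * (v (5, 1) - v (7, 1))))
    + m2 * ((1953125 / 5545233) * (2 * (v (5, 1) - v (8, 1))))) := by
  unfold acc
  rw [sum9]
  simp [pf, i3, cl, CQ, m9]

theorem acc_6_0 (v : Fin 9 × Fin 2 → ℝ) : acc v (6, 0) = v (6, 0)
    + (MM * (((3906250 / 5545233) * rt) * ((1 / 2) * (v (6, 0) - v (0, 0)) + (-3 / 2) * (v (6, 1) - v (0, 1))))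
    + (33 / 5000) * (bb * ((333329 / 213658) * (v (6, 0) - v (1, 0)) + (-226737 / 213658) * (v (6, 1) - v (1, 1))))
    + (33 / 5000) * (aa * ((57329 / 36658) * (v (6, 0) - v (2, 0)) + (38763 / 36658) * (v (6, 1) - v (2, 1))))
    + (33 / 5000) * (aa * ((-20671 / 36658) * (v (6, 0) - v (3, 0)) + (38763 / 36658) * (v (6, 1) - v (3, 1))))
    + (33 / 5000) * (bb * ((-119671 / 213658) * (v (6, 0) - v (4, 0)) + (-226737 / 213658) * (v (6, 1) - v (4, 1))))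
    + m2 * ((1953125 / 5545233) * (2 * (v (6, 0) - v (5, 0))))
    + m2 * ((1953125 / 5545233) * ((-1) * (v (6, 0) - v (7, 0))))
    + m2 * (((1953125 / 22180932) * rt) * ((1 / 2) * (v (6, 0) - v (8, 0)) + (-3 / 2) * (v (6, 1) - v (8, 1))))) := by
  unfold acc
  rw [sum9]
  simp [pf, i3, cl, CQ, m9]

theorem acc_6_1 (v : Fin 9 × Fin 2 → ℝ) : acc v (6, 1) = v (6, 1)
    + (MM * (((3906250 / 5545233) * rt) * ((-3 / 2) * (v (6, 0) - v (0, 0)) + (1 / 2) * (v (6, 1) - v (0, 1))))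
    + (33 / 5000) * (bb * ((-226737 / 213658) * (v (6, 0) - v (1, 0)) + (-119671 / 213658) * (v (6, 1) - v (1, 1))))
    + (33 / 5000) * (aa * ((38763 / 36658) * (v (6, 0) - v (2, 0)) + (-20671 / 36658) * (v (6, 1) - v (2, 1))))
    + (33 / 5000) * (aa * ((38763 / 36658) * (v (6, 0) - v (3, 0)) + (57329 / 36658) * (v (6, 1) - v (3, 1))))
    + (33 / 5000) * (bb * ((-226737 / 213658) * (v (6, 0) - v (4, 0)) + (333329 / 213658) * (v (6, 1) - v (4, 1))))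
    + m2 * ((1953125 / 5545233) * ((-1) * (v (6, 1) - v (5, 1))))
    + m2 * ((1953125 / 5545233) * (2 * (v (6, 1) - v (7, 1))))
    + m2 * (((1953125 / 22180932) * rt) * ((-3 / 2) * (v (6, 0) - v (8, 0)) + (1 / 2) * (v (6, 1) - v (8, 1))))) := by
  unfold acc
  rw [sum9]
  simp [pf, i3, cl, CQ, m9]

theorem acc_7_0 (v : Fin 9 × Fin 2 → ℝ) : acc v (7, 0) = v (7, 0)
    + (MM * (((3906250 / 5545233) * rt) * ((1 / 2) * (v (7, 0) - v (0, 0)) + (3 / 2) * (v (7, 1) - v (0, 1))))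
    + (33 / 5000) * (bb * ((333329 / 213658) * (v (7, 0) - v (1, 0)) + (226737 / 213658) * (v (7, 1) - v (1, 1))))
    + (33 / 5000) * (bb * ((-119671 / 213658) * (v (7, 0) - v (2, 0)) + (226737 / 213658) * (v (7, 1) - v (2, 1))))
    + (33 / 5000) * (aa * ((-20671 / 36658) * (v (7, 0) - v (3, 0)) + (-38763 / 36658) * (v (7, 1) - v (3, 1))))
    + (33 / 5000) * (aa * ((57329 / 36658) * (v (7, 0) - v (4, 0)) + (-38763 / 36658) * (v (7, 1) - v (4, 1))))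
    + m2 * (((1953125 / 22180932) * rt) * ((1 / 2) * (v (7, 0) - v (5, 0)) + (3 / 2) * (v (7, 1) - v (5, 1))))
    + m2 * ((1953125 / 5545233) * ((-1) * (v (7, 0) - v (6, 0))))
    + m2 * ((1953125 / 5545233) * (2 * (v (7, 0) - v (8, 0))))) := by
  unfold acc
  rw [sum9]
  simp [pf, i3, cl, CQ, m9]

theorem acc_7_1 (v : Fin 9 × Fin 2 → ℝ) : acc v (7, 1) = v (7, 1)
    + (MM * (((3906250 / 5545233) * rt) * ((3 / 2) * (v (7, 0) - v (0, 0)) + (1 / 2) * (v (7, 1) - v (0, 1))))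
    + (33 / 5000) * (bb * ((226737 / 213658) * (v (7, 0) - v (1, 0)) + (-119671 / 213658) * (v (7, 1) - v (1, 1))))
    + (33 / 5000) * (bb * ((226737 / 213658) * (v (7, 0) - v (2, 0)) + (333329 / 213658) * (v (7, 1) - v (2, 1))))
    + (33 / 5000) * (aa * ((-38763 / 36658) * (v (7, 0) - v (3, 0)) + (57329 / 36658) * (v (7, 1) - v (3, 1))))
    + (33 / 5000) * (aa * ((-38763 / 36658) * (v (7, 0) - v (4, 0)) + (-20671 / 36658) * (v (7, 1) - v (4, 1))))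
    + m2 * (((1953125 / 22180932) * rt) * ((3 / 2) * (v (7, 0) - v (5, 0)) + (1 / 2) * (v (7, 1) - v (5, 1))))
    + m2 * ((1953125 / 5545233) * (2 * (v (7, 1) - v (6, 1))))
    + m2 * ((1953125 / 5545233) * ((-1) * (v (7, 1) - v (8, 1))))) := by
  unfold acc
  rw [sum9]
  simp [pf, i3, cl, CQ, m9]

theorem acc_8_0 (v : Fin 9 × Fin 2 → ℝ) : acc v (8, 0) = v (8, 0)
    + (MM * (((3906250 / 5545233) * rt) * ((1 / 2) * (v (8, 0) - v (0, 0)) + (-3 / 2) * (v (8, 1) - v (0, 1))))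
    + (33 / 5000) * (aa * ((-20671 / 36658) * (v (8, 0) - v (1, 0)) + (38763 / 36658) * (v (8, 1) - v (1, 1))))
    + (33 / 5000) * (bb * ((-119671 / 213658) * (v (8, 0) - v (2, 0)) + (-226737 / 213658) * (v (8, 1) - v (2, 1))))
    + (33 / 5000) * (bb * ((333329 / 213658) * (v (8, 0) - v (3, 0)) + (-226737 / 213658) * (v (8, 1) - v (3, 1))))
    + (33 / 5000) * (aa * ((57329 / 36658) * (v (8, 0) - v (4, 0)) + (38763 / 36658) * (v (8, 1) - v (4, 1))))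
    + m2 * ((1953125 / 5545233) * ((-1) * (v (8, 0) - v (5, 0))))
    + m2 * (((1953125 / 22180932) * rt) * ((1 / 2) * (v (8, 0) - v (6, 0)) + (-3 / 2) * (v (8, 1) - v (6, 1))))
    + m2 * ((1953125 / 5545233) * (2 * (v (8, 0) - v (7, 0))))) := by
  unfold acc
  rw [sum9]
  simp [pf, i3, cl, CQ, m9]

theorem acc_8_1 (v : Fin 9 × Fin 2 → ℝ) : acc v (8, 1) = v (8, 1)
    + (MM * (((3906250 / 5545233) * rt) * ((-3 / 2) * (v (8, 0) - v (0, 0)) + (1 / 2) * (v (8, 1) - v (0, 1))))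
    + (33 / 5000) * (aa * ((38763 / 36658) * (v (8, 0) - v (1, 0)) + (57329 / 36658) * (v (8, 1) - v (1, 1))))
    + (33 / 5000) * (bb * ((-226737 / 213658) * (v (8, 0) - v (2, 0)) + (333329 / 213658) * (v (8, 1) - v (2, 1))))
    + (33 / 5000) * (bb * ((-226737 / 213658) * (v (8, 0) - v (3, 0)) + (-119671 / 213658) * (v (8, 1) - v (3, 1))))
    + (33 / 5000) * (aa * ((38763 / 36658) * (v (8, 0) - v (4, 0)) + (-20671 / 36658) * (v (8, 1) - v (4, 1))))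
    + m2 * ((1953125 / 5545233) * (2 * (v (8, 1) - v (5, 1))))
    + m2 * (((1953125 / 22180932) * rt) * ((-3 / 2) * (v (8, 0) - v (6, 0)) + (1 / 2) * (v (8, 1) - v (6, 1))))
    + m2 * ((1953125 / 5545233) * ((-1) * (v (8, 1) - v (7, 1))))) := by
  unfold acc
  rw [sum9]
  simp [pf, i3, cl, CQ, m9]

end Pool.Agent.H19.Moeckel
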