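import Mathlib

/-! Boundedness of solutions of a gyroscopic linear system with enough distinct real frequencies. -/

set_option autoImplicit false

namespace Pool.Agent.H19.Moeckel

open Complex

/-- the matrix pencil -/
noncomputable def Pen {N : ℕ} (K : Matrix (Fin N) (Fin N) ℝ) (σ : Fin N → ℝ) (l : ℝ) :
    Matrix (Fin N) (Fin N) ℝ :=
  Matrix.of fun a b => (if a = b then l ^ 2 + 2 * l * σ a else 0) + K a b

theorem norm_const {f : ℝ → ℂ} {l : ℝ} (hf : ∀ t, HasDerivAt f (I * l * f t) t) (t : ℝ) :
    ‖f t‖ = ‖f 0‖ := by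
  have hg : ∀ t, HasDerivAt (fun t : ℝ => f t * Complex.exp (-(I * l * t))) 0 t := by
    intro t
    have h1 : HasDerivAt (fun t : ℝ => -(I * l * (t : ℂ))) (-(I * l * 1)) t :=
      ((Complex.ofRealCLM.hasDerivAt (x := t)).const_mul (I * l)).neg
    have h2 := h1.cexp
    have h3 := (hf t).mul h2
    refine h3.congr_deriv ?_
    ring
  have hc : ∀ t, f t * Complex.exp (-(I * l * t)) = f 0 * Complex.exp (-(I * l * (0 : ℝ))) := by
    intro t
    exact is_const_of_deriv_eq_zero (fun t => (hg t).differentiableAt)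
      (fun t => (hg t).deriv) t 0
  have hn : ∀ t : ℝ, ‖Complex.exp (-(I * l * t))‖ = 1 := by
    intro t
    rw [Complex.norm_exp]
    have : (-(I * l * t)).re = 0 := by simp
    rw [this, Real.exp_zero]
  have := congrArg norm (hc t)
  rw [norm_mul, norm_mul, hn t, hn 0, mul_one, mul_one] at this
  exact this

theorem bounded_of_roots {N : ℕ} (K : Matrix (Fin N) (Fin N) ℝ) (σ : Fin N → ℝ)
    (lam : Fin (N + N) → ℝ) (hinj : Function.Injective lam)
    (hdet : ∀ i, (Pen K σ (lam i)).det = 0)
    (y z : ℝ → Fin N → ℂ) (hy : ∀ t a, HasDerivAt (fun t => y t a) (z t a) t)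
    (hz : ∀ t a, HasDerivAt (fun t => z t a)
      ((∑ b, (K a b : ℂ) * y t b) - 2 * I * σ a * z t a) t) :
    ∃ C : ℝ, ∀ t a, ‖y t a‖ ≤ C ∧ ‖z t a‖ ≤ C := by
  -- left null vectors
  have hq : ∀ i, ∃ q : Fin N → ℝ, q ≠ 0 ∧ Matrix.vecMul q (Pen K σ (lam i)) = 0 := by
    intro i
    obtain ⟨q, h1, h2⟩ := Matrix.exists_vecMul_eq_zero_iff.mpr (hdet i)
    exact ⟨q, h1, h2⟩
  choose q hq0 hq1 using hq
  have hqK : ∀ i b, ∑ a, q i a * K a b = -((lam i) ^ 2 + 2 * lam i * σ b) * q i b := by
    intro i b
    have h := congrFun (hq1 i) b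
    simp only [Matrix.vecMul, dotProduct, Pen, Matrix.of_apply, Pi.zero_apply] at h
    simp only [mul_add, Finset.sum_add_distrib, mul_ite, mul_zero] at h
    rw [Finset.sum_ite_eq' Finset.univ b] at h
    simp only [Finset.mem_univ, if_true] at h
    linarith
  -- the scalar functions
  set f : Fin (N + N) → ℝ → ℂ := fun i t =>
    ∑ a, (q i a : ℂ) * (z t a + I * (lam i + 2 * σ a) * y t a) with hf
  have hfd : ∀ i t, HasDerivAt (f i) (I * lam i * f i t) t := by
    intro i t
    have h1 : HasDerivAt (f i) (∑ a, (q i a : ℂ) * (((∑ b, (K a b : ℂ) * y t b)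
        - 2 * I * σ a * z t a) + I * (lam i + 2 * σ a) * z t a)) t := by
      apply HasDerivAt.fun_sum
      intro a _
      apply HasDerivAt.const_mul
      exact (hz t a).add ((hy t a).const_mul _)
    refine h1.congr_deriv ?_
    have h2 : ∑ a, (q i a : ℂ) * (∑ b, (K a b : ℂ) * y t b)
        = ∑ b, (-((lam i : ℂ) ^ 2 + 2 * lam i * σ b) * q i b) * y t b := by
      simp only [Finset.mul_sum]
      rw [Finset.sum_comm]
      apply Finset.sum_congr rfl
      intro b _
      have h3 : ((∑ a, q i a * K a b : ℝ) : ℂ)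
          = ((-((lam i) ^ 2 + 2 * lam i * σ b) * q i b : ℝ) : ℂ) := by rw [hqK i b]
      push_cast at h3
      rw [← h3, Finset.sum_mul]
      apply Finset.sum_congr rfl
      intro a _
      ring
    have h4 : ∑ a, (q i a : ℂ) * (((∑ b, (K a b : ℂ) * y t b)
        - 2 * I * σ a * z t a) + I * (lam i + 2 * σ a) * z t a)
        = ∑ a, (q i a : ℂ) * (∑ b, (K a b : ℂ) * y t b)
          + ∑ a, (q i a : ℂ) * (I * lam i * z t a) := by
      rw [← Finset.sum_add_distrib]
      apply Finset.sum_congr rfl
      intro a _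
      ring
    rw [h4, h2, hf]
    simp only
    rw [Finset.mul_sum, ← Finset.sum_add_distrib]
    apply Finset.sum_congr rfl
    intro a _
    have hI : I * I = -1 := Complex.I_mul_I
    linear_combination (-(lam i : ℂ) * (q i a) * (lam i + 2 * σ a) * y t a) * hI
  -- linear independence of the functionals
  let vec : Fin (N + N) → (Fin N ⊕ Fin N → ℂ) := fun i =>
    Sum.elim (fun a => I * (lam i + 2 * σ a) * (q i a : ℂ)) (fun a => (q i a : ℂ))
  -- the transposed first order system
  let T : Module.End ℂ (Fin N ⊕ Fin N → ℂ) :=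
    { toFun := fun p => Sum.elim (fun b => ∑ a, (K a b : ℂ) * p (Sum.inr a))
        (fun b => p (Sum.inl b) - 2 * I * σ b * p (Sum.inr b))
      map_add' := by
        intro p p'
        funext s
        rcases s with b | b
        · simp [mul_add, Finset.sum_add_distrib]
        · simp; ring
      map_smul' := by
        intro c p
        funext s
        rcases s with b | b
        · simp only [Sum.elim_inl, Pi.smul_apply, smul_eq_mul, RingHom.id_apply, Finset.mul_sum]
          apply Finset.sum_congr rfl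
          intro a _
          ring
        · simp; ring }
  have hT : ∀ i, T (vec i) = (I * lam i) • vec i := by
    intro i
    funext s
    rcases s with b | b
    · show ∑ a, (K a b : ℂ) * (q i a : ℂ) = (I * lam i) * (I * (lam i + 2 * σ b) * (q i b : ℂ))
      have h3 : ((∑ a, q i a * K a b : ℝ) : ℂ)
          = ((-((lam i) ^ 2 + 2 * lam i * σ b) * q i b : ℝ) : ℂ) := by rw [hqK i b]
      push_cast at h3
      have h5 : ∑ a, (K a b : ℂ) * (q i a : ℂ) = ∑ a, (q i a : ℂ) * (K a b : ℂ) := by
        apply Finset.sum_congr rfl; intro a _; ring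
      rw [h5, h3]
      have hI : I * I = -1 := Complex.I_mul_I
      linear_combination (-(lam i : ℂ) * (lam i + 2 * σ b) * (q i b : ℂ)) * hI
    · show I * (lam i + 2 * σ b) * (q i b : ℂ) - 2 * I * σ b * (q i b : ℂ)
        = (I * lam i) * (q i b : ℂ)
      ring
  have hvne : ∀ i, vec i ≠ 0 := by
    intro i h
    apply hq0 i
    funext a
    have := congrFun h (Sum.inr a)
    have h2 : (q i a : ℂ) = 0 := this
    exact_mod_cast h2
  have hli : LinearIndependent ℂ vec := by
    apply Module.End.eigenvectors_linearIndependent' T (fun i => I * (lam i : ℂ))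
    · intro i j hij
      have hij' : I * (lam i : ℂ) = I * (lam j : ℂ) := hij
      have := mul_left_cancel₀ Complex.I_ne_zero hij'
      exact hinj (by exact_mod_cast this)
    · intro i
      exact ⟨Module.End.mem_eigenspace_iff.mpr (hT i), hvne i⟩
  have hspan : ⊤ ≤ Submodule.span ℂ (Set.range vec) := by
    rw [hli.span_eq_top_of_card_eq_finrank']
    simp
  -- every coordinate functional is a combination of the scalar functions
  have hcoef : ∀ s : Fin N ⊕ Fin N, ∃ c : Fin (N + N) → ℂ, ∑ i, c i • vec i = Pi.single s 1 := by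
    intro s
    have : (Pi.single s (1 : ℂ) : Fin N ⊕ Fin N → ℂ) ∈ Submodule.span ℂ (Set.range vec) :=
      hspan Submodule.mem_top
    rw [Submodule.mem_span_range_iff_exists_fun] at this
    exact this
  choose c hc using hcoef
  let Y : ℝ → (Fin N ⊕ Fin N → ℂ) := fun t => Sum.elim (y t) (z t)
  have hfY : ∀ i t, f i t = ∑ s, vec i s * Y t s := by
    intro i t
    rw [Fintype.sum_sum_type]
    show ∑ a, (q i a : ℂ) * (z t a + I * (lam i + 2 * σ a) * y t a)
      = ∑ a, (I * (lam i + 2 * σ a) * (q i a : ℂ)) * y t a + ∑ a, (q i a : ℂ) * z t a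
    rw [← Finset.sum_add_distrib]
    apply Finset.sum_congr rfl
    intro a _
    ring
  have hYc : ∀ s t, Y t s = ∑ i, c s i * f i t := by
    intro s t
    have h1 : ∑ i, c s i * f i t = ∑ s', (∑ i, c s i • vec i) s' * Y t s' := by
      simp only [hfY, Finset.mul_sum, Finset.sum_apply, Pi.smul_apply, smul_eq_mul, Finset.sum_mul]
      rw [Finset.sum_comm]
      apply Finset.sum_congr rfl
      intro s' _
      apply Finset.sum_congr rfl
      intro i _
      ring
    rw [h1, hc s, Finset.sum_eq_single s]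
    · simp
    · intro b _ hb; simp [hb]
    · simp
  have hbd : ∀ s, ∃ C : ℝ, ∀ t, ‖Y t s‖ ≤ C := by
    intro s
    refine ⟨∑ i, ‖c s i‖ * ‖f i 0‖, fun t => ?_⟩
    rw [hYc s t]
    refine (norm_sum_le _ _).trans ?_
    apply Finset.sum_le_sum
    intro i _
    rw [norm_mul, norm_const (hfd i) t]
  choose B hB using hbd
  refine ⟨∑ s, |B s|, fun t a => ⟨?_, ?_⟩⟩
  · have h1 := hB (Sum.inl a) t
    refine (h1.trans (le_abs_self _)).trans ?_
    exact Finset.single_le_sum (f := fun s => |B s|) (fun s _ => abs_nonneg _) (Finset.mem_univ _)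
  · have h1 := hB (Sum.inr a) t
    refine (h1.trans (le_abs_self _)).trans ?_
    exact Finset.single_le_sum (f := fun s => |B s|) (fun s _ => abs_nonneg _) (Finset.mem_univ _)

end Pool.Agent.H19.Moeckel
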