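import Mathlib
import Pool.Agent.H19.Moeckel.Linear

/-! Distinct roots from sign changes, and explicit determinants. -/

set_option autoImplicit false

namespace Pool.Agent.H19.Moeckel

theorem roots_of_signs {N : ℕ} (P : ℝ → ℝ) (hP : Continuous P) (p : Fin (N + 1) → ℝ)
    (hp : StrictMono p) (hs : ∀ i : Fin N, P (p i.castSucc) * P (p i.succ) < 0) :
    ∃ lam : Fin N → ℝ, Function.Injective lam ∧ ∀ i, P (lam i) = 0 := by
  have h1 : ∀ i : Fin N, ∃ l, p i.castSucc < l ∧ l < p i.succ ∧ P l = 0 := by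
    intro i
    have hlt : p i.castSucc < p i.succ := hp (Fin.castSucc_lt_succ)
    have hsi := hs i
    have hne0 : P (p i.castSucc) ≠ 0 := by
      intro h; rw [h, zero_mul] at hsi; exact lt_irrefl _ hsi
    have hne1 : P (p i.succ) ≠ 0 := by
      intro h; rw [h, mul_zero] at hsi; exact lt_irrefl _ hsi
    have hex : ∃ l ∈ Set.Icc (p i.castSucc) (p i.succ), P l = 0 := by
      rcases lt_or_gt_of_ne hne0 with h | h
      · have h2 : 0 < P (p i.succ) := by
          by_contra hcon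
          push Not at hcon
          have := mul_nonneg_of_nonpos_of_nonpos h.le hcon
          linarith
        have := intermediate_value_Icc hlt.le hP.continuousOn
        obtain ⟨l, hl, hl2⟩ := this ⟨h.le, h2.le⟩
        exact ⟨l, hl, hl2⟩
      · have h2 : P (p i.succ) < 0 := by
          by_contra hcon
          push Not at hcon
          have := mul_nonneg h.le hcon
          linarith
        have := intermediate_value_Icc' hlt.le hP.continuousOn
        obtain ⟨l, hl, hl2⟩ := this ⟨h2.le, h.le⟩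
        exact ⟨l, hl, hl2⟩
    obtain ⟨l, ⟨hl1, hl2⟩, hl3⟩ := hex
    refine ⟨l, lt_of_le_of_ne hl1 ?_, lt_of_le_of_ne hl2 ?_, hl3⟩
    · intro h; rw [← h] at hl3; exact hne0 hl3
    · intro h; rw [h] at hl3; exact hne1 hl3
  choose lam hlam using h1
  refine ⟨lam, ?_, fun i => (hlam i).2.2⟩
  have hmono : ∀ i j : Fin N, i < j → lam i < lam j := by
    intro i j hij
    have h2 : p i.succ ≤ p j.castSucc := hp.monotone (Fin.succ_le_castSucc_iff.mpr hij)
    exact (hlam i).2.1.trans (h2.trans_lt (hlam j).1)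
  intro i j hij
  rcases lt_trichotomy i j with h | h | h
  · exact absurd hij (hmono i j h).ne
  · exact h
  · exact absurd hij (hmono j i h).ne'

theorem pen_continuous {N : ℕ} (K : Matrix (Fin N) (Fin N) ℝ) (σ : Fin N → ℝ) :
    Continuous fun l => (Pen K σ l).det := by
  apply Continuous.matrix_det
  apply continuous_matrix
  intro a b
  unfold Pen
  simp only [Matrix.of_apply]
  by_cases h : a = b
  · simp only [h, if_true]; fun_prop
  · simp only [h, if_false]; fun_prop

theorem det4 (M : Matrix (Fin 4) (Fin 4) ℝ) : M.det =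
    M 0 0 * (M 1 1 * (M 2 2 * M 3 3 - M 2 3 * M 3 2) - M 1 2 * (M 2 1 * M 3 3 - M 2 3 * M 3 1)
      + M 1 3 * (M 2 1 * M 3 2 - M 2 2 * M 3 1))
    - M 0 1 * (M 1 0 * (M 2 2 * M 3 3 - M 2 3 * M 3 2) - M 1 2 * (M 2 0 * M 3 3 - M 2 3 * M 3 0)
      + M 1 3 * (M 2 0 * M 3 2 - M 2 2 * M 3 0))
    + M 0 2 * (M 1 0 * (M 2 1 * M 3 3 - M 2 3 * M 3 1) - M 1 1 * (M 2 0 * M 3 3 - M 2 3 * M 3 0)
      + M 1 3 * (M 2 0 * M 3 1 - M 2 1 * M 3 0))
    - M 0 3 * (M 1 0 * (M 2 1 * M 3 2 - M 2 2 * M 3 1) - M 1 1 * (M 2 0 * M 3 2 - M 2 2 * M 3 0)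
      + M 1 2 * (M 2 0 * M 3 1 - M 2 1 * M 3 0)) := by
  rw [Matrix.det_succ_row_zero]
  simp only [Matrix.det_fin_three, Fin.sum_univ_four, Matrix.submatrix_apply]
  have e1 : ∀ i : Fin 4, ∀ j : Fin 3, i.succAbove j = if j.castSucc < i then j.castSucc else j.succ := by
    decide
  simp only [e1]
  simp [Fin.succ, Fin.castSucc, Fin.lt_def]
  ring

end Pool.Agent.H19.Moeckel
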