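import Mathlib
import Pool.Agent.H19.Moeckel.Geo
import Pool.Agent.H19.Moeckel.Roots

/-! Boundedness of the coordinates attached to an invariant block. -/

set_option autoImplicit false

namespace Pool.Agent.H19.Moeckel

open Ex

/-- rotation by a right angle -/
noncomputable def JJ (v : Fin 9 × Fin 2 → ℝ) (p : Fin 9 × Fin 2) : ℝ :=
  if p.2 = 0 then -v (p.1, 1) else v (p.1, 0)

theorem mode_bounded {N : ℕ} (K : Matrix (Fin N) (Fin N) ℝ) (σ : Fin N → ℝ)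
    (p : Fin (N + N + 1) → ℝ) (hp : StrictMono p)
    (hs : ∀ i : Fin (N + N), (Pen K σ (p i.castSucc)).det * (Pen K σ (p i.succ)).det < 0)
    (yr yi : Fin N → (Fin 9 × Fin 2 → ℝ) →L[ℝ] ℝ)
    (h1 : ∀ a v, yr a (acc v) = ∑ b, K a b * yr b v)
    (h2 : ∀ a v, yi a (acc v) = ∑ b, K a b * yi b v)
    (h3 : ∀ a v, yr a (JJ v) = -(σ a * yi a v))
    (h4 : ∀ a v, yi a (JJ v) = σ a * yr a v)
    (ξ η : ℝ → (Fin 9 × Fin 2 → ℝ)) (hξ : ∀ t, HasDerivAt ξ (η t) t)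
    (hη : ∀ t, HasDerivAt η (acc (ξ t) - (2 : ℝ) • JJ (η t)) t) :
    ∃ C : ℝ, ∀ t a, |yr a (ξ t)| ≤ C ∧ |yi a (ξ t)| ≤ C ∧ |yr a (η t)| ≤ C ∧ |yi a (η t)| ≤ C := by
  obtain ⟨lam, hinj, hdet⟩ := roots_of_signs (N := N + N) (fun l => (Pen K σ l).det)
    (pen_continuous K σ) p hp hs
  have hyr : ∀ t a, HasDerivAt (fun t => yr a (ξ t)) (yr a (η t)) t := fun t a =>
    (yr a).hasFDerivAt.comp_hasDerivAt t (hξ t)
  have hyi : ∀ t a, HasDerivAt (fun t => yi a (ξ t)) (yi a (η t)) t := fun t a =>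
    (yi a).hasFDerivAt.comp_hasDerivAt t (hξ t)
  have hzr : ∀ t a, HasDerivAt (fun t => yr a (η t))
      ((∑ b, K a b * yr b (ξ t)) + 2 * (σ a * yi a (η t))) t := by
    intro t a
    have h := (yr a).hasFDerivAt.comp_hasDerivAt t (hη t)
    refine h.congr_deriv ?_
    rw [map_sub, map_smul, h1, h3, smul_eq_mul]
    ring
  have hzi : ∀ t a, HasDerivAt (fun t => yi a (η t))
      ((∑ b, K a b * yi b (ξ t)) - 2 * (σ a * yr a (η t))) t := by
    intro t a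
    have h := (yi a).hasFDerivAt.comp_hasDerivAt t (hη t)
    refine h.congr_deriv ?_
    rw [map_sub, map_smul, h2, h4, smul_eq_mul]
  obtain ⟨C, hC⟩ := bounded_of_roots K σ lam hinj hdet
    (fun t a => ((yr a (ξ t) : ℝ) : ℂ) + ((yi a (ξ t) : ℝ) : ℂ) * Complex.I)
    (fun t a => ((yr a (η t) : ℝ) : ℂ) + ((yi a (η t) : ℝ) : ℂ) * Complex.I)
    (by
      intro t a
      exact (hyr t a).ofReal_comp.add ((hyi t a).ofReal_comp.mul_const _))
    (by
      intro t a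
      refine ((hzr t a).ofReal_comp.add ((hzi t a).ofReal_comp.mul_const Complex.I)).congr_deriv ?_
      push_cast
      have e : (∑ b, (K a b : ℂ) * (((yr b (ξ t) : ℝ) : ℂ) + ((yi b (ξ t) : ℝ) : ℂ) * Complex.I))
          = (∑ b, (K a b : ℂ) * ((yr b (ξ t) : ℝ) : ℂ))
            + (∑ b, (K a b : ℂ) * ((yi b (ξ t) : ℝ) : ℂ)) * Complex.I := by
        rw [Finset.sum_mul, ← Finset.sum_add_distrib]
        apply Finset.sum_congr rfl
        intro b _
        ring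
      rw [e]
      have hI : Complex.I * Complex.I = -1 := Complex.I_mul_I
      linear_combination (2 * (σ a : ℂ) * ((yi a (η t) : ℝ) : ℂ)) * hI)
  refine ⟨C, fun t a => ?_⟩
  obtain ⟨hc1, hc2⟩ := hC t a
  have hre : ∀ x y : ℝ, |x| ≤ ‖((x : ℝ) : ℂ) + ((y : ℝ) : ℂ) * Complex.I‖ := by
    intro x y
    have := Complex.abs_re_le_norm (((x : ℝ) : ℂ) + ((y : ℝ) : ℂ) * Complex.I)
    simpa using this
  have him : ∀ x y : ℝ, |y| ≤ ‖((x : ℝ) : ℂ) + ((y : ℝ) : ℂ) * Complex.I‖ := by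
    intro x y
    have := Complex.abs_im_le_norm (((x : ℝ) : ℂ) + ((y : ℝ) : ℂ) * Complex.I)
    simpa using this
  exact ⟨(hre _ _).trans hc1, (him _ _).trans hc1, (hre _ _).trans hc2, (him _ _).trans hc2⟩

/-- a block as a real matrix -/
noncomputable def KR {N : ℕ} (KE : Fin N → Fin N → Ex) : Matrix (Fin N) (Fin N) ℝ :=
  Matrix.of fun a b => (KE a b).eval env

/-- signs as reals -/
noncomputable def sR {N : ℕ} (sg : Fin N → ℚ) (a : Fin N) : ℝ := (sg a : ℝ)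

theorem pen_eval {N : ℕ} (KE : Fin N → Fin N → Ex) (sg : Fin N → ℚ) (l : ℚ) (a b : Fin N) :
    Pen (KR KE) (sR sg) (l : ℝ) a b = (penE KE sg l a b).eval env := by
  unfold Pen KR sR penE
  simp only [Matrix.of_apply]
  by_cases h : a = b
  · simp only [h, if_true, eval_add, eval_c]
    push_cast
    rfl
  · simp only [h, if_false, zero_add]

theorem det4_eval (KE : Fin 4 → Fin 4 → Ex) (sg : Fin 4 → ℚ) (l : ℚ) :
    (Pen (KR KE) (sR sg) (l : ℝ)).det = (det4E (penE KE sg l)).eval env := by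
  rw [det4]
  simp only [pen_eval]
  rfl

theorem det2_eval (KE : Fin 2 → Fin 2 → Ex) (sg : Fin 2 → ℚ) (l : ℚ) :
    (Pen (KR KE) (sR sg) (l : ℝ)).det = (det2E (penE KE sg l)).eval env := by
  rw [Matrix.det_fin_two]
  simp only [pen_eval]
  rfl

/-- test points of the first block -/
def tp1 : Fin 9 → ℚ := ![-2, -9 / 10, -7 / 10, 0, 6 / 1000, 3 / 10, 7 / 10, 9 / 10, 2]
/-- test points of the second block -/
def tp2 : Fin 9 → ℚ := ![-2, -9 / 10, -7 / 10, -4 / 10, 0, 4 / 10, 7 / 10, 9 / 10, 2]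
/-- test points of the last block -/
def tp0 : Fin 5 → ℚ := ![-2, -7 / 10, 0, 7 / 10, 2]

theorem tp1_mono : StrictMono fun i => (tp1 i : ℝ) := by
  have h : ∀ i j : Fin 9, i < j → tp1 i < tp1 j := by decide +kernel
  intro i j hij
  exact Rat.cast_lt.mpr (h i j hij)

theorem tp2_mono : StrictMono fun i => (tp2 i : ℝ) := by
  have h : ∀ i j : Fin 9, i < j → tp2 i < tp2 j := by decide +kernel
  intro i j hij
  exact Rat.cast_lt.mpr (h i j hij)

theorem tp0_mono : StrictMono fun i => (tp0 i : ℝ) := by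
  have h : ∀ i j : Fin 5, i < j → tp0 i < tp0 j := by decide +kernel
  intro i j hij
  exact Rat.cast_lt.mpr (h i j hij)

theorem signs1 : ∀ i : Fin 8, (Pen (KR K1E) (sR sg4) ((tp1 i.castSucc : ℚ) : ℝ)).det
    * (Pen (KR K1E) (sR sg4) ((tp1 i.succ : ℚ) : ℝ)).det < 0 := by
  intro i
  rw [det4_eval, det4_eval]
  have s0 := pos_of_posQ _ k1s0
  have s1 := neg_of_negQ _ k1s1
  have s2 := pos_of_posQ _ k1s2
  have s3 := neg_of_negQ _ k1s3
  have s4 := pos_of_posQ _ k1s4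
  have s5 := neg_of_negQ _ k1s5
  have s6 := pos_of_posQ _ k1s6
  have s7 := neg_of_negQ _ k1s7
  have s8 := pos_of_posQ _ k1s8
  fin_cases i
  · exact mul_neg_of_pos_of_neg s0 s1
  · exact mul_neg_of_neg_of_pos s1 s2
  · exact mul_neg_of_pos_of_neg s2 s3
  · exact mul_neg_of_neg_of_pos s3 s4
  · exact mul_neg_of_pos_of_neg s4 s5
  · exact mul_neg_of_neg_of_pos s5 s6
  · exact mul_neg_of_pos_of_neg s6 s7
  · exact mul_neg_of_neg_of_pos s7 s8

theorem signs2 : ∀ i : Fin 8, (Pen (KR K2E) (sR sg4) ((tp2 i.castSucc : ℚ) : ℝ)).det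
    * (Pen (KR K2E) (sR sg4) ((tp2 i.succ : ℚ) : ℝ)).det < 0 := by
  intro i
  rw [det4_eval, det4_eval]
  have s0 := pos_of_posQ _ k2s0
  have s1 := neg_of_negQ _ k2s1
  have s2 := pos_of_posQ _ k2s2
  have s3 := neg_of_negQ _ k2s3
  have s4 := pos_of_posQ _ k2s4
  have s5 := neg_of_negQ _ k2s5
  have s6 := pos_of_posQ _ k2s6
  have s7 := neg_of_negQ _ k2s7
  have s8 := pos_of_posQ _ k2s8
  fin_cases i
  · exact mul_neg_of_pos_of_neg s0 s1
  · exact mul_neg_of_neg_of_pos s1 s2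
  · exact mul_neg_of_pos_of_neg s2 s3
  · exact mul_neg_of_neg_of_pos s3 s4
  · exact mul_neg_of_pos_of_neg s4 s5
  · exact mul_neg_of_neg_of_pos s5 s6
  · exact mul_neg_of_pos_of_neg s6 s7
  · exact mul_neg_of_neg_of_pos s7 s8

theorem signs0 : ∀ i : Fin 4, (Pen (KR K0E) (sR sg2) ((tp0 i.castSucc : ℚ) : ℝ)).det
    * (Pen (KR K0E) (sR sg2) ((tp0 i.succ : ℚ) : ℝ)).det < 0 := by
  intro i
  rw [det2_eval, det2_eval]
  have s0 := pos_of_posQ _ k0s0
  have s1 := neg_of_negQ _ k0s1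
  have s2 := pos_of_posQ _ k0s2
  have s3 := neg_of_negQ _ k0s3
  have s4 := pos_of_posQ _ k0s4
  fin_cases i
  · exact mul_neg_of_pos_of_neg s0 s1
  · exact mul_neg_of_neg_of_pos s1 s2
  · exact mul_neg_of_pos_of_neg s2 s3
  · exact mul_neg_of_neg_of_pos s3 s4

end Pool.Agent.H19.Moeckel
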