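import Mathlib
import Pool.Agent.H19.Moeckel.Mode
import Pool.Agent.H19.Moeckel.Acc

/-! The linear identities behind the block decomposition. -/

set_option autoImplicit false
set_option linter.unusedSimpArgs false

namespace Pool.Agent.H19.Moeckel

open Ex

/-- coordinate functional -/
noncomputable def pj (j : Fin 9) (k : Fin 2) : (Fin 9 × Fin 2 → ℝ) →L[ℝ] ℝ :=
  ContinuousLinearMap.proj (R := ℝ) (φ := fun _ : Fin 9 × Fin 2 => ℝ) (j, k)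

theorem pj_apply (j : Fin 9) (k : Fin 2) (v : Fin 9 × Fin 2 → ℝ) : pj j k v = v (j, k) := rfl

/-- real parts of the first block -/
noncomputable def y1r : Fin 4 → (Fin 9 × Fin 2 → ℝ) →L[ℝ] ℝ := ![
  pj 1 0 - pj 2 0 + pj 3 0 - pj 4 0,
  pj 5 1 - pj 6 1 + pj 7 1 - pj 8 1,
  pj 1 0 + pj 2 0 + pj 3 0 + pj 4 0 - (4 : ℝ) • pj 0 0,
  pj 5 0 + pj 6 0 + pj 7 0 + pj 8 0 - (4 : ℝ) • pj 0 0]

/-- imaginary parts of the first block -/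
noncomputable def y1i : Fin 4 → (Fin 9 × Fin 2 → ℝ) →L[ℝ] ℝ := ![
  pj 1 1 - pj 2 1 + pj 3 1 - pj 4 1,
  -(pj 5 0 - pj 6 0 + pj 7 0 - pj 8 0),
  -(pj 1 1 + pj 2 1 + pj 3 1 + pj 4 1 - (4 : ℝ) • pj 0 1),
  -(pj 5 1 + pj 6 1 + pj 7 1 + pj 8 1 - (4 : ℝ) • pj 0 1)]

/-- real parts of the second block -/
noncomputable def y2r : Fin 4 → (Fin 9 × Fin 2 → ℝ) →L[ℝ] ℝ := ![
  pj 1 0 - pj 2 1 - pj 3 0 + pj 4 1,
  (1 / 2 : ℝ) • ((pj 5 0 - pj 6 1 - pj 7 0 + pj 8 1) - (pj 5 1 + pj 6 0 - pj 7 1 - pj 8 0)),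
  pj 1 0 - pj 2 1 - pj 3 0 + pj 4 1,
  (1 / 2 : ℝ) • ((pj 5 0 - pj 6 1 - pj 7 0 + pj 8 1) - (pj 5 1 + pj 6 0 - pj 7 1 - pj 8 0))]

/-- imaginary parts of the second block -/
noncomputable def y2i : Fin 4 → (Fin 9 × Fin 2 → ℝ) →L[ℝ] ℝ := ![
  pj 1 1 + pj 2 0 - pj 3 1 - pj 4 0,
  (1 / 2 : ℝ) • ((pj 5 0 - pj 6 1 - pj 7 0 + pj 8 1) + (pj 5 1 + pj 6 0 - pj 7 1 - pj 8 0)),
  -(pj 1 1 + pj 2 0 - pj 3 1 - pj 4 0),
  -((1 / 2 : ℝ) • ((pj 5 0 - pj 6 1 - pj 7 0 + pj 8 1) + (pj 5 1 + pj 6 0 - pj 7 1 - pj 8 0)))]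

/-- real parts of the last block -/
noncomputable def y0r : Fin 2 → (Fin 9 × Fin 2 → ℝ) →L[ℝ] ℝ := ![
  (177 / 125 : ℝ) • (pj 1 0 + pj 2 1 - pj 3 0 - pj 4 1)
    - ((pj 5 0 + pj 6 1 - pj 7 0 - pj 8 1) + (pj 5 1 - pj 6 0 - pj 7 1 + pj 8 0)),
  (177 / 125 : ℝ) • (pj 1 0 + pj 2 1 - pj 3 0 - pj 4 1)
    - ((pj 5 0 + pj 6 1 - pj 7 0 - pj 8 1) + (pj 5 1 - pj 6 0 - pj 7 1 + pj 8 0))]

/-- imaginary parts of the last block -/
noncomputable def y0i : Fin 2 → (Fin 9 × Fin 2 → ℝ) →L[ℝ] ℝ := ![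
  (177 / 125 : ℝ) • (pj 1 1 - pj 2 0 - pj 3 1 + pj 4 0)
    - ((pj 5 1 - pj 6 0 - pj 7 1 + pj 8 0) - (pj 5 0 + pj 6 1 - pj 7 0 - pj 8 1)),
  -((177 / 125 : ℝ) • (pj 1 1 - pj 2 0 - pj 3 1 + pj 4 0)
    - ((pj 5 1 - pj 6 0 - pj 7 1 + pj 8 0) - (pj 5 0 + pj 6 1 - pj 7 0 - pj 8 1)))]

theorem y1r_acc : ∀ (a : Fin 4) (v : Fin 9 × Fin 2 → ℝ),
    y1r a (acc v) = ∑ b, KR K1E a b * y1r b v := by
  intro a v
  rw [Fin.sum_univ_four]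
  fin_cases a
  · simp [y1r, KR, K1E, k1E, k2E, k3E, k4E, A11E, A22E, B11E, B22E, C11E, C22E, alE, beE, hE, hQ, sQ, m1Q, qaQ,
      qbQ, eval_add, eval_sub, eval_mul, eval_c, eval_v, env0, env1, env2, env3, env4, pj_apply]
    simp only [acc_0_0, acc_0_1, acc_1_0, acc_1_1, acc_2_0, acc_2_1, acc_3_0, acc_3_1, acc_4_0, acc_4_1, acc_5_0, acc_5_1, acc_6_0, acc_6_1, acc_7_0, acc_7_1, acc_8_0, acc_8_1]
    ring
  · simp [y1r, KR, K1E, k1E, k2E, k3E, k4E, A11E, A22E, B11E, B22E, C11E, C22E, alE, beE, hE, hQ, sQ, m1Q, qaQ,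
      qbQ, eval_add, eval_sub, eval_mul, eval_c, eval_v, env0, env1, env2, env3, env4, pj_apply]
    simp only [acc_0_0, acc_0_1, acc_1_0, acc_1_1, acc_2_0, acc_2_1, acc_3_0, acc_3_1, acc_4_0, acc_4_1, acc_5_0, acc_5_1, acc_6_0, acc_6_1, acc_7_0, acc_7_1, acc_8_0, acc_8_1]
    ring
  · simp [y1r, KR, K1E, k1E, k2E, k3E, k4E, A11E, A22E, B11E, B22E, C11E, C22E, alE, beE, hE, hQ, sQ, m1Q, qaQ,
      qbQ, eval_add, eval_sub, eval_mul, eval_c, eval_v, env0, env1, env2, env3, env4, pj_apply]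
    simp only [acc_0_0, acc_0_1, acc_1_0, acc_1_1, acc_2_0, acc_2_1, acc_3_0, acc_3_1, acc_4_0, acc_4_1, acc_5_0, acc_5_1, acc_6_0, acc_6_1, acc_7_0, acc_7_1, acc_8_0, acc_8_1]
    ring
  · simp [y1r, KR, K1E, k1E, k2E, k3E, k4E, A11E, A22E, B11E, B22E, C11E, C22E, alE, beE, hE, hQ, sQ, m1Q, qaQ,
      qbQ, eval_add, eval_sub, eval_mul, eval_c, eval_v, env0, env1, env2, env3, env4, pj_apply]
    simp only [acc_0_0, acc_0_1, acc_1_0, acc_1_1, acc_2_0, acc_2_1, acc_3_0, acc_3_1, acc_4_0, acc_4_1, acc_5_0, acc_5_1, acc_6_0, acc_6_1, acc_7_0, acc_7_1, acc_8_0, acc_8_1]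
    ring

theorem y1i_acc : ∀ (a : Fin 4) (v : Fin 9 × Fin 2 → ℝ),
    y1i a (acc v) = ∑ b, KR K1E a b * y1i b v := by
  intro a v
  rw [Fin.sum_univ_four]
  fin_cases a
  · simp [y1i, KR, K1E, k1E, k2E, k3E, k4E, A11E, A22E, B11E, B22E, C11E, C22E, alE, beE, hE, hQ, sQ, m1Q, qaQ,
      qbQ, eval_add, eval_sub, eval_mul, eval_c, eval_v, env0, env1, env2, env3, env4, pj_apply]
    simp only [acc_0_0, acc_0_1, acc_1_0, acc_1_1, acc_2_0, acc_2_1, acc_3_0, acc_3_1, acc_4_0, acc_4_1, acc_5_0, acc_5_1, acc_6_0, acc_6_1, acc_7_0, acc_7_1, acc_8_0, acc_8_1]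
    ring
  · simp [y1i, KR, K1E, k1E, k2E, k3E, k4E, A11E, A22E, B11E, B22E, C11E, C22E, alE, beE, hE, hQ, sQ, m1Q, qaQ,
      qbQ, eval_add, eval_sub, eval_mul, eval_c, eval_v, env0, env1, env2, env3, env4, pj_apply]
    simp only [acc_0_0, acc_0_1, acc_1_0, acc_1_1, acc_2_0, acc_2_1, acc_3_0, acc_3_1, acc_4_0, acc_4_1, acc_5_0, acc_5_1, acc_6_0, acc_6_1, acc_7_0, acc_7_1, acc_8_0, acc_8_1]
    ring
  · simp [y1i, KR, K1E, k1E, k2E, k3E, k4E, A11E, A22E, B11E, B22E, C11E, C22E, alE, beE, hE, hQ, sQ, m1Q, qaQ,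
      qbQ, eval_add, eval_sub, eval_mul, eval_c, eval_v, env0, env1, env2, env3, env4, pj_apply]
    simp only [acc_0_0, acc_0_1, acc_1_0, acc_1_1, acc_2_0, acc_2_1, acc_3_0, acc_3_1, acc_4_0, acc_4_1, acc_5_0, acc_5_1, acc_6_0, acc_6_1, acc_7_0, acc_7_1, acc_8_0, acc_8_1]
    ring
  · simp [y1i, KR, K1E, k1E, k2E, k3E, k4E, A11E, A22E, B11E, B22E, C11E, C22E, alE, beE, hE, hQ, sQ, m1Q, qaQ,
      qbQ, eval_add, eval_sub, eval_mul, eval_c, eval_v, env0, env1, env2, env3, env4, pj_apply]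
    simp only [acc_0_0, acc_0_1, acc_1_0, acc_1_1, acc_2_0, acc_2_1, acc_3_0, acc_3_1, acc_4_0, acc_4_1, acc_5_0, acc_5_1, acc_6_0, acc_6_1, acc_7_0, acc_7_1, acc_8_0, acc_8_1]
    ring

theorem y2r_acc : ∀ (a : Fin 4) (v : Fin 9 × Fin 2 → ℝ),
    y2r a (acc v) = ∑ b, KR K2E a b * y2r b v := by
  intro a v
  rw [Fin.sum_univ_four]
  fin_cases a
  · simp [y2r, KR, K2E, k1E, k2E, k3E, k4E, A11E, A22E, B11E, B22E, C11E, C22E, alE, beE, hE, hQ, sQ, m1Q, qaQ,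
      qbQ, eval_add, eval_sub, eval_mul, eval_c, eval_v, env0, env1, env2, env3, env4, pj_apply]
    simp only [acc_0_0, acc_0_1, acc_1_0, acc_1_1, acc_2_0, acc_2_1, acc_3_0, acc_3_1, acc_4_0, acc_4_1, acc_5_0, acc_5_1, acc_6_0, acc_6_1, acc_7_0, acc_7_1, acc_8_0, acc_8_1]
    ring
  · simp [y2r, KR, K2E, k1E, k2E, k3E, k4E, A11E, A22E, B11E, B22E, C11E, C22E, alE, beE, hE, hQ, sQ, m1Q, qaQ,
      qbQ, eval_add, eval_sub, eval_mul, eval_c, eval_v, env0, env1, env2, env3, env4, pj_apply]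
    simp only [acc_0_0, acc_0_1, acc_1_0, acc_1_1, acc_2_0, acc_2_1, acc_3_0, acc_3_1, acc_4_0, acc_4_1, acc_5_0, acc_5_1, acc_6_0, acc_6_1, acc_7_0, acc_7_1, acc_8_0, acc_8_1]
    ring
  · simp [y2r, KR, K2E, k1E, k2E, k3E, k4E, A11E, A22E, B11E, B22E, C11E, C22E, alE, beE, hE, hQ, sQ, m1Q, qaQ,
      qbQ, eval_add, eval_sub, eval_mul, eval_c, eval_v, env0, env1, env2, env3, env4, pj_apply]
    simp only [acc_0_0, acc_0_1, acc_1_0, acc_1_1, acc_2_0, acc_2_1, acc_3_0, acc_3_1, acc_4_0, acc_4_1, acc_5_0, acc_5_1, acc_6_0, acc_6_1, acc_7_0, acc_7_1, acc_8_0, acc_8_1]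
    ring
  · simp [y2r, KR, K2E, k1E, k2E, k3E, k4E, A11E, A22E, B11E, B22E, C11E, C22E, alE, beE, hE, hQ, sQ, m1Q, qaQ,
      qbQ, eval_add, eval_sub, eval_mul, eval_c, eval_v, env0, env1, env2, env3, env4, pj_apply]
    simp only [acc_0_0, acc_0_1, acc_1_0, acc_1_1, acc_2_0, acc_2_1, acc_3_0, acc_3_1, acc_4_0, acc_4_1, acc_5_0, acc_5_1, acc_6_0, acc_6_1, acc_7_0, acc_7_1, acc_8_0, acc_8_1]
    ring

theorem y2i_acc : ∀ (a : Fin 4) (v : Fin 9 × Fin 2 → ℝ),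
    y2i a (acc v) = ∑ b, KR K2E a b * y2i b v := by
  intro a v
  rw [Fin.sum_univ_four]
  fin_cases a
  · simp [y2i, KR, K2E, k1E, k2E, k3E, k4E, A11E, A22E, B11E, B22E, C11E, C22E, alE, beE, hE, hQ, sQ, m1Q, qaQ,
      qbQ, eval_add, eval_sub, eval_mul, eval_c, eval_v, env0, env1, env2, env3, env4, pj_apply]
    simp only [acc_0_0, acc_0_1, acc_1_0, acc_1_1, acc_2_0, acc_2_1, acc_3_0, acc_3_1, acc_4_0, acc_4_1, acc_5_0, acc_5_1, acc_6_0, acc_6_1, acc_7_0, acc_7_1, acc_8_0, acc_8_1]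
    ring
  · simp [y2i, KR, K2E, k1E, k2E, k3E, k4E, A11E, A22E, B11E, B22E, C11E, C22E, alE, beE, hE, hQ, sQ, m1Q, qaQ,
      qbQ, eval_add, eval_sub, eval_mul, eval_c, eval_v, env0, env1, env2, env3, env4, pj_apply]
    simp only [acc_0_0, acc_0_1, acc_1_0, acc_1_1, acc_2_0, acc_2_1, acc_3_0, acc_3_1, acc_4_0, acc_4_1, acc_5_0, acc_5_1, acc_6_0, acc_6_1, acc_7_0, acc_7_1, acc_8_0, acc_8_1]
    ring
  · simp [y2i, KR, K2E, k1E, k2E, k3E, k4E, A11E, A22E, B11E, B22E, C11E, C22E, alE, beE, hE, hQ, sQ, m1Q, qaQ,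
      qbQ, eval_add, eval_sub, eval_mul, eval_c, eval_v, env0, env1, env2, env3, env4, pj_apply]
    simp only [acc_0_0, acc_0_1, acc_1_0, acc_1_1, acc_2_0, acc_2_1, acc_3_0, acc_3_1, acc_4_0, acc_4_1, acc_5_0, acc_5_1, acc_6_0, acc_6_1, acc_7_0, acc_7_1, acc_8_0, acc_8_1]
    ring
  · simp [y2i, KR, K2E, k1E, k2E, k3E, k4E, A11E, A22E, B11E, B22E, C11E, C22E, alE, beE, hE, hQ, sQ, m1Q, qaQ,
      qbQ, eval_add, eval_sub, eval_mul, eval_c, eval_v, env0, env1, env2, env3, env4, pj_apply]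
    simp only [acc_0_0, acc_0_1, acc_1_0, acc_1_1, acc_2_0, acc_2_1, acc_3_0, acc_3_1, acc_4_0, acc_4_1, acc_5_0, acc_5_1, acc_6_0, acc_6_1, acc_7_0, acc_7_1, acc_8_0, acc_8_1]
    ring

theorem y0r_acc : ∀ (a : Fin 2) (v : Fin 9 × Fin 2 → ℝ),
    y0r a (acc v) = ∑ b, KR K0E a b * y0r b v := by
  intro a v
  rw [Fin.sum_univ_two]
  fin_cases a
  · simp [y0r, KR, K0E, k1E, k2E, k3E, k4E, A11E, A22E, B11E, B22E, C11E, C22E, alE, beE, hE, hQ, sQ, m1Q, qaQ,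
      qbQ, eval_add, eval_sub, eval_mul, eval_c, eval_v, env0, env1, env2, env3, env4, pj_apply]
    simp only [acc_0_0, acc_0_1, acc_1_0, acc_1_1, acc_2_0, acc_2_1, acc_3_0, acc_3_1, acc_4_0, acc_4_1, acc_5_0, acc_5_1, acc_6_0, acc_6_1, acc_7_0, acc_7_1, acc_8_0, acc_8_1]
    linear_combination (4 * (v (1, 0) + v (2, 1) - v (3, 0) - v (4, 1))) * (177 / 250 * E1 + E2)
  · simp [y0r, KR, K0E, k1E, k2E, k3E, k4E, A11E, A22E, B11E, B22E, C11E, C22E, alE, beE, hE, hQ, sQ, m1Q, qaQ,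
      qbQ, eval_add, eval_sub, eval_mul, eval_c, eval_v, env0, env1, env2, env3, env4, pj_apply]
    simp only [acc_0_0, acc_0_1, acc_1_0, acc_1_1, acc_2_0, acc_2_1, acc_3_0, acc_3_1, acc_4_0, acc_4_1, acc_5_0, acc_5_1, acc_6_0, acc_6_1, acc_7_0, acc_7_1, acc_8_0, acc_8_1]
    linear_combination (4 * (v (1, 0) + v (2, 1) - v (3, 0) - v (4, 1))) * (177 / 250 * E1 + E2)

theorem y0i_acc : ∀ (a : Fin 2) (v : Fin 9 × Fin 2 → ℝ),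
    y0i a (acc v) = ∑ b, KR K0E a b * y0i b v := by
  intro a v
  rw [Fin.sum_univ_two]
  fin_cases a
  · simp [y0i, KR, K0E, k1E, k2E, k3E, k4E, A11E, A22E, B11E, B22E, C11E, C22E, alE, beE, hE, hQ, sQ, m1Q, qaQ,
      qbQ, eval_add, eval_sub, eval_mul, eval_c, eval_v, env0, env1, env2, env3, env4, pj_apply]
    simp only [acc_0_0, acc_0_1, acc_1_0, acc_1_1, acc_2_0, acc_2_1, acc_3_0, acc_3_1, acc_4_0, acc_4_1, acc_5_0, acc_5_1, acc_6_0, acc_6_1, acc_7_0, acc_7_1, acc_8_0, acc_8_1]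
    linear_combination ((-2 * (v (1, 1) - v (2, 0) - v (3, 1) + v (4, 0)))) * (177 / 250 * E1 + E2)
  · simp [y0i, KR, K0E, k1E, k2E, k3E, k4E, A11E, A22E, B11E, B22E, C11E, C22E, alE, beE, hE, hQ, sQ, m1Q, qaQ,
      qbQ, eval_add, eval_sub, eval_mul, eval_c, eval_v, env0, env1, env2, env3, env4, pj_apply]
    simp only [acc_0_0, acc_0_1, acc_1_0, acc_1_1, acc_2_0, acc_2_1, acc_3_0, acc_3_1, acc_4_0, acc_4_1, acc_5_0, acc_5_1, acc_6_0, acc_6_1, acc_7_0, acc_7_1, acc_8_0, acc_8_1]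
    linear_combination (-(-2 * (v (1, 1) - v (2, 0) - v (3, 1) + v (4, 0)))) * (177 / 250 * E1 + E2)

theorem y1r_J : ∀ (a : Fin 4) (v : Fin 9 × Fin 2 → ℝ), y1r a (JJ v) = -(sR sg4 a * y1i a v) := by
  intro a v
  fin_cases a <;> simp [y1r, y1i, sR, sg4, JJ, pj_apply] <;> ring

theorem y1i_J : ∀ (a : Fin 4) (v : Fin 9 × Fin 2 → ℝ), y1i a (JJ v) = sR sg4 a * y1r a v := by
  intro a v
  fin_cases a <;> simp [y1r, y1i, sR, sg4, JJ, pj_apply] <;> ring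

theorem y2r_J : ∀ (a : Fin 4) (v : Fin 9 × Fin 2 → ℝ), y2r a (JJ v) = -(sR sg4 a * y2i a v) := by
  intro a v
  fin_cases a <;> simp [y2r, y2i, sR, sg4, JJ, pj_apply] <;> ring

theorem y2i_J : ∀ (a : Fin 4) (v : Fin 9 × Fin 2 → ℝ), y2i a (JJ v) = sR sg4 a * y2r a v := by
  intro a v
  fin_cases a <;> simp [y2r, y2i, sR, sg4, JJ, pj_apply] <;> ring

theorem y0r_J : ∀ (a : Fin 2) (v : Fin 9 × Fin 2 → ℝ), y0r a (JJ v) = -(sR sg2 a * y0i a v) := by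
  intro a v
  fin_cases a <;> simp [y0r, y0i, sR, sg2, JJ, pj_apply] <;> ring

theorem y0i_J : ∀ (a : Fin 2) (v : Fin 9 × Fin 2 → ℝ), y0i a (JJ v) = sR sg2 a * y0r a v := by
  intro a v
  fin_cases a <;> simp [y0r, y0i, sR, sg2, JJ, pj_apply] <;> ring

end Pool.Agent.H19.Moeckel
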