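import Mathlib
import Pool.Agent.H19.Moeckel.Ids

/-! Boundedness of every solution modulo translations, rotations and scalings. -/

set_option autoImplicit false

namespace Pool.Agent.H19.Moeckel

open Ex

theorem recon (v : Fin 9 × Fin 2 → ℝ) (C : ℝ)
    (h1 : ∀ a, |y1r a v| ≤ C ∧ |y1i a v| ≤ C)
    (h2 : ∀ a, |y2r a v| ≤ C ∧ |y2i a v| ≤ C)
    (h0 : ∀ a, |y0r a v| ≤ C ∧ |y0i a v| ≤ C) (p : Fin 9 × Fin 2) :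
    |v p - (v (0, p.2) + ((v (1, 0) + v (2, 1) - v (3, 0) - v (4, 1)) / 4) * xx p
      + ((v (1, 1) - v (2, 0) - v (3, 1) + v (4, 0)) / 4) * JJ xx p)| ≤ 4 * C := by
  obtain ⟨⟨a1, a2⟩, ⟨a3, a4⟩⟩ := And.imp abs_le.mp abs_le.mp (h1 0)
  obtain ⟨⟨b1, b2⟩, ⟨b3, b4⟩⟩ := And.imp abs_le.mp abs_le.mp (h1 1)
  obtain ⟨⟨c1, c2⟩, ⟨c3, c4⟩⟩ := And.imp abs_le.mp abs_le.mp (h1 2)
  obtain ⟨⟨d1, d2⟩, ⟨d3, d4⟩⟩ := And.imp abs_le.mp abs_le.mp (h1 3)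
  obtain ⟨⟨e1, e2⟩, ⟨e3, e4⟩⟩ := And.imp abs_le.mp abs_le.mp (h2 0)
  obtain ⟨⟨f1, f2⟩, ⟨f3, f4⟩⟩ := And.imp abs_le.mp abs_le.mp (h2 1)
  obtain ⟨⟨g1, g2⟩, ⟨g3, g4⟩⟩ := And.imp abs_le.mp abs_le.mp (h0 0)
  simp [y1r, y1i, y2r, y2i, y0r, y0i, pj_apply] at a1 a2 a3 a4 b1 b2 b3 b4 c1 c2 c3 c4 d1 d2 d3 d4 e1 e2 e3 e4 f1 f2 f3 f4 g1 g2 g3 g4
  obtain ⟨j, k⟩ := p
  rw [abs_le]
  fin_cases j <;> fin_cases k <;> simp [xx, XQ, JJ] <;>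
    first
    | linarith
    | exact ⟨by linarith, by linarith⟩

theorem bounded_all (ξ η : ℝ → (Fin 9 × Fin 2 → ℝ)) (hξ : ∀ t, HasDerivAt ξ (η t) t)
    (hη : ∀ t, HasDerivAt η (acc (ξ t) - (2 : ℝ) • JJ (η t)) t) :
    ∃ C : ℝ, ∀ t : ℝ, ∃ a b : Fin 2 → ℝ, ∃ c : Fin 4 → ℝ, ∀ p : Fin 9 × Fin 2,
        |ξ t p - (a p.2 + c 0 * xx p + c 1 * JJ xx p)| ≤ C ∧
        |η t p - (b p.2 + c 2 * xx p + c 3 * JJ xx p)| ≤ C := by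
  obtain ⟨C1, hC1⟩ := mode_bounded (KR K1E) (sR sg4) (fun i => (tp1 i : ℝ)) tp1_mono signs1
    y1r y1i y1r_acc y1i_acc y1r_J y1i_J ξ η hξ hη
  obtain ⟨C2, hC2⟩ := mode_bounded (KR K2E) (sR sg4) (fun i => (tp2 i : ℝ)) tp2_mono signs2
    y2r y2i y2r_acc y2i_acc y2r_J y2i_J ξ η hξ hη
  obtain ⟨C0, hC0⟩ := mode_bounded (KR K0E) (sR sg2) (fun i => (tp0 i : ℝ)) tp0_mono signs0
    y0r y0i y0r_acc y0i_acc y0r_J y0i_J ξ η hξ hη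
  have m1 : C1 ≤ max C1 (max C2 C0) := le_max_left _ _
  have m2 : C2 ≤ max C1 (max C2 C0) := (le_max_left _ _).trans (le_max_right _ _)
  have m0 : C0 ≤ max C1 (max C2 C0) := (le_max_right _ _).trans (le_max_right _ _)
  refine ⟨4 * max C1 (max C2 C0), fun t => ?_⟩
  refine ⟨fun k => ξ t (0, k), fun k => η t (0, k), ![
    (ξ t (1, 0) + ξ t (2, 1) - ξ t (3, 0) - ξ t (4, 1)) / 4,
    (ξ t (1, 1) - ξ t (2, 0) - ξ t (3, 1) + ξ t (4, 0)) / 4,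
    (η t (1, 0) + η t (2, 1) - η t (3, 0) - η t (4, 1)) / 4,
    (η t (1, 1) - η t (2, 0) - η t (3, 1) + η t (4, 0)) / 4], fun p => ⟨?_, ?_⟩⟩
  · exact recon (ξ t) (max C1 (max C2 C0))
      (fun a => ⟨(hC1 t a).1.trans m1, (hC1 t a).2.1.trans m1⟩)
      (fun a => ⟨(hC2 t a).1.trans m2, (hC2 t a).2.1.trans m2⟩)
      (fun a => ⟨(hC0 t a).1.trans m0, (hC0 t a).2.1.trans m0⟩) p
  · exact recon (η t) (max C1 (max C2 C0))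
      (fun a => ⟨(hC1 t a).2.2.1.trans m1, (hC1 t a).2.2.2.trans m1⟩)
      (fun a => ⟨(hC2 t a).2.2.1.trans m2, (hC2 t a).2.2.2.trans m2⟩)
      (fun a => ⟨(hC0 t a).2.2.1.trans m0, (hC0 t a).2.2.2.trans m0⟩) p

end Pool.Agent.H19.Moeckel
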