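import Mathlib
import Pool.Agent.H19.Moeckel.Mode
import Pool.Agent.H19.Moeckel.Acc

/-! The direction in which the second variation is negative, and the equilibrium equations. -/

set_option autoImplicit false

namespace Pool.Agent.H19.Moeckel

open Ex

/-- first coordinate of the central body -/
noncomputable def cc : ℝ := -(PE.eval env) / MtE.eval env

/-- the direction -/
noncomputable def zz (p : Fin 9 × Fin 2) : ℝ :=
  (![![cc, 0], ![cc + 3 / 200, 0], ![cc + 397 / 200, 0], ![cc + 3 / 200, 0],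
    ![cc + 397 / 200, 0], ![cc + 181 / 200, -(111 / 125)], ![cc + 181 / 200, 111 / 125],
    ![cc + 181 / 200, -(111 / 125)], ![cc + 181 / 200, 111 / 125]] : Fin 9 → Fin 2 → ℝ) p.1 p.2

theorem zz_0_0 : zz (0, 0) = cc := rfl
theorem zz_0_1 : zz (0, 1) = 0 := rfl
theorem zz_1_0 : zz (1, 0) = cc + 3 / 200 := rfl
theorem zz_1_1 : zz (1, 1) = 0 := rfl
theorem zz_2_0 : zz (2, 0) = cc + 397 / 200 := rfl
theorem zz_2_1 : zz (2, 1) = 0 := rfl
theorem zz_3_0 : zz (3, 0) = cc + 3 / 200 := rfl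
theorem zz_3_1 : zz (3, 1) = 0 := rfl
theorem zz_4_0 : zz (4, 0) = cc + 397 / 200 := rfl
theorem zz_4_1 : zz (4, 1) = 0 := rfl
theorem zz_5_0 : zz (5, 0) = cc + 181 / 200 := rfl
theorem zz_5_1 : zz (5, 1) = -(111 / 125) := rfl
theorem zz_6_0 : zz (6, 0) = cc + 181 / 200 := rfl
theorem zz_6_1 : zz (6, 1) = 111 / 125 := rfl
theorem zz_7_0 : zz (7, 0) = cc + 181 / 200 := rfl
theorem zz_7_1 : zz (7, 1) = -(111 / 125) := rfl
theorem zz_8_0 : zz (8, 0) = cc + 181 / 200 := rfl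
theorem zz_8_1 : zz (8, 1) = 111 / 125 := rfl

theorem Mt_eq : MtE.eval env = MM + 33 / 1250 + 4 * m2 := by
  simp only [MtE, m1Q, eval_add, eval_mul, eval_c, eval_v, env3, env4]
  norm_num

theorem P_eq : PE.eval env = 33 / 1250 + 181 / 50 * m2 := by
  simp only [PE, m1Q, eval_add, eval_mul, eval_c, eval_v, env3]
  norm_num

theorem Mt_pos : 0 < MtE.eval env := by
  rw [Mt_eq]
  have := MM_pos
  have := m2_pos
  positivity

theorem P_pos : 0 < PE.eval env := by
  rw [P_eq]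
  have := m2_pos
  positivity

theorem cc_Mt : cc * MtE.eval env = -(PE.eval env) := div_mul_cancel₀ _ Mt_pos.ne'

theorem cc_neg : cc < 0 := by
  have h1 := cc_Mt
  have h2 := Mt_pos
  have h3 := P_pos
  by_contra hcon
  push Not at hcon
  have := mul_nonneg hcon h2.le
  linarith

theorem zz_form : ∑ i : Fin 9, ∑ k : Fin 2, m9 i * zz (i, k) * acc zz (i, k)
    = QE.eval env + 2 * cc * PE.eval env + cc ^ 2 * MtE.eval env := by
  rw [sum9]
  simp only [Fin.sum_univ_two]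
  rw [acc_0_0, acc_1_0, acc_2_0, acc_3_0, acc_4_0, acc_5_0, acc_6_0, acc_7_0, acc_8_0,
    acc_0_1, acc_1_1, acc_2_1, acc_3_1, acc_4_1, acc_5_1, acc_6_1, acc_7_1, acc_8_1]
  rw [Mt_eq, P_eq]
  simp only [zz_0_0, zz_0_1, zz_1_0, zz_1_1, zz_2_0, zz_2_1, zz_3_0, zz_3_1, zz_4_0, zz_4_1,
    zz_5_0, zz_5_1, zz_6_0, zz_6_1, zz_7_0, zz_7_1, zz_8_0, zz_8_1]
  simp only [QE, m1Q, eval_add, eval_mul, eval_c, eval_v, env0, env1, env2, env3, env4]
  simp only [show m9 0 = MM from rfl, show m9 1 = 33 / 5000 from rfl,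
    show m9 2 = 33 / 5000 from rfl, show m9 3 = 33 / 5000 from rfl, show m9 4 = 33 / 5000 from rfl,
    show m9 5 = m2 from rfl, show m9 6 = m2 from rfl, show m9 7 = m2 from rfl,
    show m9 8 = m2 from rfl]
  push_cast
  ring

theorem zz_form_neg : ∑ i : Fin 9, ∑ k : Fin 2, m9 i * zz (i, k) * acc zz (i, k) < 0 := by
  have h1 := cc_Mt
  have h2 := Mt_pos
  have h3 := neg_of_negQ _ hess_neg
  have h4 : hessE.eval env = QE.eval env * MtE.eval env - PE.eval env * PE.eval env := rfl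
  rw [h4] at h3
  rw [zz_form]
  by_contra hcon
  push Not at hcon
  have h5 := mul_nonneg hcon h2.le
  have h6 : (QE.eval env + 2 * cc * PE.eval env + cc ^ 2 * MtE.eval env) * MtE.eval env
      = QE.eval env * MtE.eval env - PE.eval env * PE.eval env := by
    linear_combination (2 * PE.eval env + (cc * MtE.eval env - PE.eval env)) * h1
  rw [h6] at h5
  linarith

theorem zz_com : ∀ k : Fin 2, ∑ i : Fin 9, m9 i * zz (i, k) = 0 := by
  have h1 := cc_Mt
  rw [Mt_eq, P_eq] at h1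
  intro k
  rw [sum9]
  simp only [show m9 0 = MM from rfl, show m9 1 = 33 / 5000 from rfl,
    show m9 2 = 33 / 5000 from rfl, show m9 3 = 33 / 5000 from rfl, show m9 4 = 33 / 5000 from rfl,
    show m9 5 = m2 from rfl, show m9 6 = m2 from rfl, show m9 7 = m2 from rfl,
    show m9 8 = m2 from rfl]
  fin_cases k
  · show MM * zz (0, 0) + 33 / 5000 * zz (1, 0) + 33 / 5000 * zz (2, 0) + 33 / 5000 * zz (3, 0)
      + 33 / 5000 * zz (4, 0) + m2 * zz (5, 0) + m2 * zz (6, 0) + m2 * zz (7, 0)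
      + m2 * zz (8, 0) = 0
    simp only [zz_0_0, zz_1_0, zz_2_0, zz_3_0, zz_4_0, zz_5_0, zz_6_0, zz_7_0, zz_8_0]
    linear_combination h1
  · show MM * zz (0, 1) + 33 / 5000 * zz (1, 1) + 33 / 5000 * zz (2, 1) + 33 / 5000 * zz (3, 1)
      + 33 / 5000 * zz (4, 1) + m2 * zz (5, 1) + m2 * zz (6, 1) + m2 * zz (7, 1)
      + m2 * zz (8, 1) = 0
    simp only [zz_0_1, zz_1_1, zz_2_1, zz_3_1, zz_4_1, zz_5_1, zz_6_1, zz_7_1, zz_8_1]
    ring

theorem xx_com : ∀ k : Fin 2, ∑ i : Fin 9, m9 i * xx (i, k) = 0 := by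
  intro k
  rw [sum9]
  fin_cases k <;> simp [m9, xx, XQ] <;> ring

theorem zz_xx : ∑ p : Fin 9 × Fin 2, m9 p.1 * zz p * xx p = 0 := by
  rw [Fintype.sum_prod_type, sum9]
  simp only [Fin.sum_univ_two]
  simp [m9, xx, XQ, zz]
  ring

theorem xx_distinct : ∀ i j : Fin 9, i ≠ j → (xx (i, 0), xx (i, 1)) ≠ (xx (j, 0), xx (j, 1)) := by
  intro i j hij h
  have h1 := sq_pos_of_ne i j hij
  have h2 : xx (i, 0) = xx (j, 0) := congrArg Prod.fst h
  have h3 : xx (i, 1) = xx (j, 1) := congrArg Prod.snd h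
  rw [h2, h3] at h1
  simp at h1

theorem grad_eq : ∀ (a : Fin 9) (k : Fin 2),
    ∑ j, m9 a * m9 j * (-((dist2 xx a j) ^ 3)⁻¹ * (xx (a, k) - xx (j, k)))
      = -(m9 a * xx (a, k)) := by
  intro a k
  have e : ∑ j, m9 a * m9 j * (-((dist2 xx a j) ^ 3)⁻¹ * (xx (a, k) - xx (j, k)))
      = -(m9 a * ∑ j, m9 j * (i3 (cl a j) * (xx (a, k) - xx (j, k)))) := by
    rw [Finset.mul_sum, ← Finset.sum_neg_distrib]
    apply Finset.sum_congr rfl
    intro j _
    rw [dist3]
    ring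
  rw [e]
  congr 2
  rw [sum9]
  have h1 := E1
  have h2 := E2
  fin_cases a <;> fin_cases k <;> simp [m9, xx, XQ, i3, cl] <;>
    first
    | ring1
    | linear_combination h1
    | linear_combination -h1
    | linear_combination h2
    | linear_combination -h2

end Pool.Agent.H19.Moeckel
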